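import Pool.Agent.K1H8.FT.Defs

set_option autoImplicit false

namespace Pool.Agent.K1H8.FT

open Pool.Agent.Helper745.FSub Relation

theorem rtg_map {α β : Type} {r : α → α → Prop} {p : β → β → Prop} (f : α → β)
    (h : ∀ a b, r a b → p (f a) (f b)) {a b : α} (hab : ReflTransGen r a b) :
    ReflTransGen p (f a) (f b) := by
  induction hab with
  | refl => exact .refl
  | tail _ h2 ih => exact ih.tail (h _ _ h2)

theorem bvg_nat (c : Cd) (g : List Cd) (k : Fin (bs c).I) :
    bvg c g (Fin.natAdd 3 k) = Sum.inr (Sum.inl k) := content_cn_bv1 _ _ _ _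

theorem bvg_cast (c : Cd) (g : List Cd) (i : Fin 3) :
    bvg c g (Fin.castAdd (bs c).I i) = Sum.inl i := content_cn_bv2 _ _ _ _

theorem bvg_inj (c : Cd) (g : List Cd) : Function.Injective (bvg c g) := emb_child_bv _ _ _

theorem bvg_ne (c : Cd) (g : List Cd) (i : Fin (3 + (bs c).I)) (m : Fin (bs c).M) (v : VG g) :
    bvg c g i ≠ Sum.inr (Sum.inr (m, v)) := adj_irr_bvne _ _ _ _ _ _

theorem cvg_inl (c : Cd) (g : List Cd) (m : Fin (bs c).M) (i : Fin 3) :
    cvg c g m (Sum.inl i) = bvg c g ((bs c).face m i) := rfl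

theorem cvg_inr (c : Cd) (g : List Cd) (m : Fin (bs c).M) (v : VG g) :
    cvg c g m (Sum.inr v) = Sum.inr (Sum.inr (m, v)) := rfl

theorem cvg_inj (c : Cd) (g : List Cd) (m : Fin (bs c).M) : Function.Injective (cvg c g m) := by
  rintro (a | a) (b | b) h
  · rw [cvg_inl, cvg_inl] at h
    rw [face_inj c m (bvg_inj c g h)]
  · rw [cvg_inl, cvg_inr] at h
    exact absurd h (bvg_ne _ _ _ _ _)
  · rw [cvg_inl, cvg_inr] at h
    exact absurd h.symm (bvg_ne _ _ _ _ _)
  · rw [cvg_inr, cvg_inr] at h
    have h1 := Sum.inr.inj (Sum.inr.inj h)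
    rw [(Prod.mk.inj h1).2]

theorem AG_base (c : Cd) (g : List Cd) (i j : Fin (3 + (bs c).I)) (h : (bs c).adj i j = true) :
    AG (c :: g) (bvg c g i) (bvg c g j) := Or.inl ⟨i, j, h, rfl, rfl⟩

theorem AG_child (c : Cd) (g : List Cd) (m : Fin (bs c).M) (a b : WG g) (h : AG g a b) :
    AG (c :: g) (cvg c g m a) (cvg c g m b) := Or.inr ⟨m, a, b, h, rfl, rfl⟩

theorem AG_symm : ∀ (g : List Cd) (u v : WG g), AG g u v → AG g v u
  | [], u, v, h => by
      obtain ⟨h1, h2⟩ := h
      refine ⟨h1.symm, ?_⟩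
      rcases h2 with h2 | h2 | ⟨a, b, h2, h3⟩
      · exact Or.inr (Or.inl h2)
      · exact Or.inl h2
      · exact Or.inr (Or.inr ⟨b, a, h3, h2⟩)
  | c :: g, u, v, h => by
      rcases h with ⟨i, j, h, h1, h2⟩ | ⟨m, a, b, h, h1, h2⟩
      · exact Or.inl ⟨j, i, by rw [adj_sym0]; exact h, h2, h1⟩
      · exact Or.inr ⟨m, b, a, AG_symm g a b h, h2, h1⟩

theorem AG_irr : ∀ (g : List Cd) (u : WG g), ¬ AG g u u
  | [], u, h => h.1 rfl
  | c :: g, u, h => by
      rcases h with ⟨i, j, h, h1, h2⟩ | ⟨m, a, b, h, h1, h2⟩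
      · have h3 : i = j := bvg_inj c g (h1.symm.trans h2)
        subst h3
        rw [adj_irr0] at h
        exact absurd h (by decide)
      · have h3 : a = b := cvg_inj c g m (h1.symm.trans h2)
        subst h3
        exact AG_irr g a h

theorem corner_att : ∀ (g : List Cd) (i : Fin 3), ∃ v : VG g, AG g (Sum.inr v) (Sum.inl i)
  | [], i => ⟨none, by simp, Or.inl rfl⟩
  | c :: g, i => by
      obtain ⟨k, hk⟩ := corner_inner c i
      refine ⟨Sum.inl k, ?_⟩
      have := AG_base c g _ _ hk
      rw [bvg_nat, bvg_cast] at this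
      exact this

/-- inner adjacency -/
def IA (g : List Cd) (x y : VG g) : Prop := AG g (Sum.inr x) (Sum.inr y)

theorem inner_conn : ∀ (g : List Cd) (v w : VG g), ReflTransGen (IA g) v w
  | [], v, w => by
      have : v = w := by
        have h : ∀ a b : Option (Fin 0), a = b := by
          intro a b
          rcases a with _ | a
          · rcases b with _ | b
            · rfl
            · exact b.elim0
          · exact a.elim0
        exact h v w
      rw [this]
  | c :: g, v, w => by
      have ih := inner_conn g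
      have hsym : ∀ x y, ReflTransGen (IA (c :: g)) x y → ReflTransGen (IA (c :: g)) y x := by
        intro x y h
        induction h with
        | refl => exact .refl
        | tail _ h2 ih2 => exact ReflTransGen.head (AG_symm _ _ _ h2) ih2
      have hchild : ∀ (m : Fin (bs c).M) (a b : VG g),
          ReflTransGen (IA (c :: g)) (Sum.inr (m, a)) (Sum.inr (m, b)) := by
        intro m a b
        exact rtg_map (fun x => (Sum.inr (m, x) : VG (c :: g)))
          (fun x y h => AG_child c g m _ _ h) (ih a b)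
      have hbase : ∀ k k' : Fin (bs c).I,
          (bs c).adj (Fin.natAdd 3 k) (Fin.natAdd 3 k') = true →
          IA (c :: g) (Sum.inl k) (Sum.inl k') := by
        intro k k' h
        have := AG_base c g _ _ h
        rw [bvg_nat, bvg_nat] at this
        exact this
      obtain ⟨k0, hk0⟩ := base_root c
      have hroot : ∀ k : Fin (bs c).I, ReflTransGen (IA (c :: g)) (Sum.inl k) (Sum.inl k0) := by
        intro k
        rcases hk0 k with h | h | ⟨k1, h1, h2⟩
        · rw [h]
        · exact .single (hbase _ _ h)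
        · exact .head (hbase _ _ h1) (.single (hbase _ _ h2))
      have hall : ∀ x : VG (c :: g), ReflTransGen (IA (c :: g)) x (Sum.inl k0) := by
        rintro (k | ⟨m, a⟩)
        · exact hroot k
        · obtain ⟨i, k, hik⟩ := face_inner c m
          obtain ⟨b, hb⟩ := corner_att g i
          have h1 := AG_child c g m _ _ hb
          rw [cvg_inl, hik, bvg_nat] at h1
          exact (hchild m a b).trans (.head (show IA (c :: g) (Sum.inr (m, b)) (Sum.inl k) from h1)
            (hroot k))
      exact (hall v).trans (hsym _ _ (hall w))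

/-- library form of the connectivity of the content -/
theorem cn_at {V : Type} {g : List Cd} {A : V → V → Prop} {e : WG g → V}
    (h : Emb 0 (g.map bs) A e) :
    Cn A (Set.range fun v : VG g => e (Sum.inr v)) ∧
      ∀ c : Fin 3, At A (Set.range fun v : VG g => e (Sum.inr v)) (e (Sum.inl c)) := by
  refine ⟨?_, ?_⟩
  · intro S hS ⟨x, hx⟩ hcl
    apply Set.Subset.antisymm hS
    obtain ⟨v, rfl⟩ := hS hx
    rintro _ ⟨w, rfl⟩
    have h1 := inner_conn g v w
    induction h1 with
    | refl => exact hx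
    | tail _ h2 ih => exact hcl _ ih _ ⟨_, rfl⟩ (h.adj _ _ h2)
  · intro i
    obtain ⟨v, hv⟩ := corner_att g i
    exact ⟨_, ⟨v, rfl⟩, h.adj _ _ hv⟩

theorem emb_childg {V : Type} {c : Cd} {g : List Cd} {A : V → V → Prop} {e : WG (c :: g) → V}
    (h : Emb 0 ((c :: g).map bs) A e) (m : Fin (bs c).M) :
    Emb 0 (g.map bs) A (fun w => e (cvg c g m w)) :=
  ⟨fun _ _ hab => cvg_inj c g m (h.inj hab), fun _ _ huv => h.adj _ _ (AG_child c g m _ _ huv)⟩

end Pool.Agent.K1H8.FT
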