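import Pool.Agent.Helper745.FX.P4

/-!
# Free sets in planar graphs of treewidth four: the base graphs

`nst` is `K₄` with one marked face (a link of a chain over the edge `12`), `stf` is `K₄` with all
faces marked (the frame), `hgd` is the pentagonal bipyramid with apices `2, 3` over the cycle
`0, 1, 5, 4, 6`, with eight marked faces.  In a marked face the first entry is the apex of the face,
the last two entries span the special edge.
-/

set_option autoImplicit false

namespace Pool.Agent.K1H8.FT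

open Pool.Agent.Helper745.FSub

/-- codes of the base graphs -/
inductive Cd
  | nst
  | stf
  | hgd
deriving DecidableEq

/-- neighbour masks of the bipyramid -/
def hmask : Fin 7 → ℕ := ![78, 45, 115, 115, 108, 30, 29]

/-- the base graph of a code -/
@[reducible] def bs : Cd → Bse
  | Cd.nst => { I := 1, M := 1, gap := 0, adj := fun i j => decide (i ≠ j),
                face := (![![3, 1, 2]] : Fin 1 → Fin 3 → Fin 4), ra := fun _ => 0, rc := fun _ => 0 }
  | Cd.stf => { I := 1, M := 3, gap := 0, adj := fun i j => decide (i ≠ j),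
                face := (![![1, 0, 3], ![3, 1, 2], ![2, 3, 0]] : Fin 3 → Fin 3 → Fin 4),
                ra := fun _ => 0, rc := fun _ => 0 }
  | Cd.hgd => { I := 4, M := 8, gap := 0, adj := fun i j => Nat.testBit (hmask i) j.val,
                face := (![![5, 1, 2], ![5, 1, 3], ![2, 4, 5], ![3, 4, 5], ![2, 4, 6], ![3, 4, 6],
                  ![2, 0, 6], ![3, 0, 6]] : Fin 8 → Fin 3 → Fin 7),
                ra := fun _ => 0, rc := fun _ => 0 }

abbrev H0 := Option (Fin 0)

/-- inner vertices -/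
abbrev VG (g : List Cd) : Type := Vt H0 (g.map bs)

/-- all vertices -/
abbrev WG (g : List Cd) : Type := Wt H0 (g.map bs)

/-- adjacency -/
abbrev AG (g : List Cd) : WG g → WG g → Prop := adjW 0 (g.map bs)

/-- base vertices -/
abbrev bvg (c : Cd) (g : List Cd) (i : Fin (3 + (bs c).I)) : WG (c :: g) := bv H0 (bs c) (g.map bs) i

/-- vertices of a child -/
abbrev cvg (c : Cd) (g : List Cd) (m : Fin (bs c).M) (w : WG g) : WG (c :: g) :=
  cv H0 (bs c) (g.map bs) m w

/-- the recursive gadget -/
def GQ : ℕ → List Cd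
  | 0 => []
  | k + 1 => List.replicate (8 ^ (k + 1)) Cd.nst ++ (Cd.hgd :: GQ k)

/-- the gadget in its frame -/
def FQ (h k : ℕ) : List Cd := List.replicate h Cd.stf ++ GQ k

/-! finite facts on the base graphs -/

set_option maxRecDepth 100000

theorem adj_irr0 (c : Cd) : ∀ i, (bs c).adj i i = false := by
  cases c
  · show ∀ i : Fin 4, _; decide +kernel
  · show ∀ i : Fin 4, _; decide +kernel
  · show ∀ i : Fin 7, _; decide +kernel

theorem adj_sym0 (c : Cd) : ∀ i j, (bs c).adj i j = (bs c).adj j i := by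
  cases c
  · show ∀ i j : Fin 4, _; decide +kernel
  · show ∀ i j : Fin 4, _; decide +kernel
  · show ∀ i j : Fin 7, _; decide +kernel

theorem face_adj (c : Cd) : ∀ m : Fin (bs c).M, ∀ i j : Fin 3, i ≠ j →
    (bs c).adj ((bs c).face m i) ((bs c).face m j) = true := by
  cases c
  · show ∀ m : Fin 1, _; decide +kernel
  · show ∀ m : Fin 3, _; decide +kernel
  · show ∀ m : Fin 8, _; decide +kernel

theorem corner_adj (c : Cd) : ∀ i j : Fin 3, i ≠ j →
    (bs c).adj (Fin.castAdd (bs c).I i) (Fin.castAdd (bs c).I j) = true := by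
  cases c <;> decide +kernel

theorem face_inj (c : Cd) (m : Fin (bs c).M) : Function.Injective ((bs c).face m) := by
  intro i j hij
  by_contra hne
  have h := face_adj c m i j hne
  rw [hij, adj_irr0] at h
  exact absurd h (by decide)

theorem face_inner (c : Cd) : ∀ m : Fin (bs c).M, ∃ i : Fin 3, ∃ k : Fin (bs c).I,
    (bs c).face m i = Fin.natAdd 3 k := by
  cases c
  · show ∀ m : Fin 1, ∃ i : Fin 3, ∃ k : Fin 1, _; decide +kernel
  · show ∀ m : Fin 3, ∃ i : Fin 3, ∃ k : Fin 1, _; decide +kernel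
  · show ∀ m : Fin 8, ∃ i : Fin 3, ∃ k : Fin 4, _; decide +kernel

theorem base_root (c : Cd) : ∃ k0 : Fin (bs c).I, ∀ k : Fin (bs c).I, k = k0 ∨
    (bs c).adj (Fin.natAdd 3 k) (Fin.natAdd 3 k0) = true ∨
      ∃ k1 : Fin (bs c).I, (bs c).adj (Fin.natAdd 3 k) (Fin.natAdd 3 k1) = true ∧
        (bs c).adj (Fin.natAdd 3 k1) (Fin.natAdd 3 k0) = true := by
  cases c
  · exact ⟨(0 : Fin 1), fun k => Or.inl (Subsingleton.elim (α := Fin 1) _ _)⟩
  · exact ⟨(0 : Fin 1), fun k => Or.inl (Subsingleton.elim (α := Fin 1) _ _)⟩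
  · show ∃ k0 : Fin 4, ∀ k : Fin 4, k = k0 ∨
      (fun i j : Fin 7 => Nat.testBit (hmask i) j.val) (Fin.natAdd 3 k) (Fin.natAdd 3 k0) = true ∨
      ∃ k1 : Fin 4,
        (fun i j : Fin 7 => Nat.testBit (hmask i) j.val) (Fin.natAdd 3 k) (Fin.natAdd 3 k1) = true ∧
        (fun i j : Fin 7 => Nat.testBit (hmask i) j.val) (Fin.natAdd 3 k1) (Fin.natAdd 3 k0) = true
    decide +kernel

theorem corner_inner (c : Cd) (i : Fin 3) :
    ∃ k : Fin (bs c).I, (bs c).adj (Fin.natAdd 3 k) (Fin.castAdd (bs c).I i) = true := by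
  revert i
  cases c
  · show ∀ i : Fin 3, ∃ k : Fin 1, _; decide +kernel
  · show ∀ i : Fin 3, ∃ k : Fin 1, _; decide +kernel
  · show ∀ i : Fin 3, ∃ k : Fin 4, _; decide +kernel

end Pool.Agent.K1H8.FT
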