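import Pool.Agent.Helper745.FS.A2
import Pool.Agent.K1H8.FT.Defs

/-!
# The pentagonal bipyramid in a drawing
-/

set_option autoImplicit false

namespace Pool.Agent.K1H8.FT

open Pool.Agent.Helper745.FSub

/-- adjacency of the bipyramid -/
def ha (i j : Fin 7) : Bool := Nat.testBit (hmask i) j.val

/-- the bipyramid inside its outer triangle -/
structure FC {V : Type} (A : V → V → Prop) (f : V → Pt) (ι : Fin 7 → V) : Prop where
  drw : Drw A f
  sym : Sy A
  inj : Function.Injective ι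
  adj : ∀ i j : Fin 7, ha i j = true → A (ι i) (ι j)
  ins : ∀ i : Fin 7, 3 ≤ i.val → inT (f (ι 0)) (f (ι 1)) (f (ι 2)) (f (ι i))

/-- the nine inner faces of the bipyramid, consistently oriented -/
def allF : Fin 9 → Fin 3 → Fin 7 :=
  ![![0, 1, 3], ![1, 5, 3], ![5, 4, 3], ![4, 6, 3], ![6, 0, 3], ![1, 2, 5], ![5, 2, 4], ![4, 2, 6],
    ![6, 2, 0]]

def emp_nxt : Fin 9 → Fin 7 → Fin 7 :=
  ![![0, 0, 0, 0, 2, 2, 2],
    ![0, 0, 0, 0, 2, 0, 0],
    ![0, 0, 0, 0, 0, 0, 0],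
    ![0, 0, 0, 0, 0, 1, 0],
    ![0, 0, 0, 0, 2, 1, 0],
    ![0, 0, 0, 0, 3, 0, 0],
    ![0, 0, 0, 0, 0, 0, 0],
    ![0, 0, 0, 0, 0, 1, 0],
    ![0, 0, 0, 1, 3, 1, 0]]

def emp_rk : Fin 9 → Fin 7 → ℕ :=
  ![![0, 0, 0, 0, 1, 1, 1],
    ![0, 0, 0, 0, 1, 0, 1],
    ![0, 0, 0, 0, 0, 0, 1],
    ![0, 0, 0, 0, 0, 1, 0],
    ![0, 0, 0, 0, 1, 1, 0],
    ![0, 0, 0, 1, 2, 0, 1],
    ![0, 0, 0, 1, 0, 0, 1],
    ![0, 0, 0, 1, 0, 1, 0],
    ![0, 0, 0, 1, 2, 1, 0]]

theorem emp_tab : ∀ (m : Fin 9) (l : Fin 7), (∀ i, l ≠ allF m i) →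
    (l.val ≤ 2 ∨ (ha l (emp_nxt m l) = true ∧
      (∀ i, emp_nxt m l ≠ allF m i) ∧ emp_rk m (emp_nxt m l) < emp_rk m l)) := by
  decide +kernel

theorem emp_face : ∀ m : Fin 9, ha (allF m 0) (allF m 1) = true ∧
    ha (allF m 1) (allF m 2) = true ∧ ha (allF m 2) (allF m 0) = true := by
  decide +kernel

theorem emp_corner {V : Type} {A : V → V → Prop} {f : V → Pt} {ι : Fin 7 → V}
    (h : FC A f ι) (c : Fin 7) (hc : c.val ≤ 2) (p q r : Fin 7) (hp : p ≠ c) (hq : q ≠ c)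
    (hr : r ≠ c) : ¬ inT (f (ι p)) (f (ι q)) (f (ι r)) (f (ι c)) := by
  have key : ∀ (a b d : Fin 7), (∀ v : Fin 7, v ≠ a → (3 ≤ v.val ∨ v = b ∨ v = d)) →
      (∀ v : Fin 7, 3 ≤ v.val → inT (f (ι a)) (f (ι b)) (f (ι d)) (f (ι v))) → c = a →
      ¬ inT (f (ι p)) (f (ι q)) (f (ι r)) (f (ι c)) := by
    intro a b d hv hin hca
    subst hca
    have hh : ∀ v : Fin 7, v ≠ c → (inT (f (ι c)) (f (ι b)) (f (ι d)) (f (ι v)) ∨
        f (ι v) = f (ι b) ∨ f (ι v) = f (ι d)) := by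
      intro v hvc
      rcases hv v hvc with h1 | h1 | h1
      · exact Or.inl (hin v h1)
      · exact Or.inr (Or.inl (by rw [h1]))
      · exact Or.inr (Or.inr (by rw [h1]))
    exact extreme (hh p hp) (hh q hq) (hh r hr)
  have hcc : ∀ e : Fin 7, e.val ≤ 2 → e = 0 ∨ e = 1 ∨ e = 2 := by
    decide
  rcases hcc c hc with h0 | h0 | h0
  · exact key 0 1 2 (by decide) (fun v hv => h.ins v hv) h0
  · exact key 1 2 0 (by decide) (fun v hv => frag_empty_rot (h.ins v hv)) h0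
  · exact key 2 0 1 (by decide) (fun v hv => frag_empty_rot (frag_empty_rot (h.ins v hv))) h0

theorem emp {V : Type} {A : V → V → Prop} {f : V → Pt} {ι : Fin 7 → V} (h : FC A f ι)
    (m : Fin 9) (l : Fin 7) (hl : ∀ i, l ≠ allF m i) :
    ¬ inT (f (ι (allF m 0))) (f (ι (allF m 1))) (f (ι (allF m 2))) (f (ι l)) := by
  have main : ∀ (n : ℕ) (l : Fin 7), emp_rk m l ≤ n → (∀ i, l ≠ allF m i) →
      ¬ inT (f (ι (allF m 0))) (f (ι (allF m 1))) (f (ι (allF m 2))) (f (ι l)) := by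
    intro n
    induction n with
    | zero =>
      intro l hn hl hin
      rcases emp_tab m l hl with h1 | ⟨_, _, h3⟩
      · exact emp_corner h l h1 _ _ _ (hl 0).symm (hl 1).symm (hl 2).symm hin
      · omega
    | succ n ih =>
      intro l hn hl hin
      rcases emp_tab m l hl with h1 | ⟨h1, h2, h3⟩
      · exact emp_corner h l h1 _ _ _ (hl 0).symm (hl 1).symm (hl 2).symm hin
      · obtain ⟨f1, f2, f3⟩ := emp_face m
        have hs := sep h.drw (h.adj _ _ f1) (h.adj _ _ f2) (h.adj _ _ f3) (h.adj _ _ h1) hin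
          (fun e => h2 0 (h.inj e)) (fun e => h2 1 (h.inj e)) (fun e => h2 2 (h.inj e))
        exact ih (emp_nxt m l) (by omega) h2 hs
  exact main _ l le_rfl hl

def sgn_par : Fin 9 → Fin 9 := ![0, 0, 1, 4, 0, 1, 2, 3, 4]
def sgn_r : Fin 9 → Fin 3 := ![0, 2, 2, 1, 1, 2, 2, 2, 2]
def sgn_s : Fin 9 → Fin 3 := ![0, 1, 1, 2, 2, 0, 0, 0, 0]
def sgn_d : Fin 9 → ℕ := ![0, 1, 2, 2, 1, 2, 3, 3, 2]

theorem sgn_comb1 : ∀ m : Fin 9, m ≠ 0 →
    allF (sgn_par m) (sgn_s m + 1) = allF m (sgn_r m) ∧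
    allF (sgn_par m) (sgn_s m) = allF m (sgn_r m + 1) ∧
    sgn_d (sgn_par m) < sgn_d m := by
  decide +kernel

theorem sgn_comb2 : ∀ m : Fin 9, m ≠ 0 →
    ha (allF m (sgn_r m)) (allF m (sgn_r m + 1)) = true ∧
    ha (allF m (sgn_r m)) (allF m (sgn_r m + 2)) = true ∧
    ha (allF m (sgn_r m + 1)) (allF m (sgn_r m + 2)) = true ∧
    ha (allF m (sgn_r m)) (allF (sgn_par m) (sgn_s m + 2)) = true ∧
    ha (allF m (sgn_r m + 1)) (allF (sgn_par m) (sgn_s m + 2)) = true := by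
  decide +kernel

theorem sgn_comb3 : ∀ m : Fin 9, m ≠ 0 →
    allF m (sgn_r m) ≠ allF m (sgn_r m + 1) ∧
    allF m (sgn_r m) ≠ allF m (sgn_r m + 2) ∧
    allF m (sgn_r m + 1) ≠ allF m (sgn_r m + 2) ∧
    (∀ i, allF (sgn_par m) (sgn_s m + 2) ≠ allF m i) ∧
    (∀ i, allF m (sgn_r m + 2) ≠ allF (sgn_par m) i) := by
  decide +kernel

theorem sgn_step {V : Type} {A : V → V → Prop} {f : V → Pt} {ι : Fin 7 → V}
    (h : FC A f ι) (m : Fin 9) (hm : m ≠ 0) :
    0 < ori (f (ι (allF m 0))) (f (ι (allF m 1))) (f (ι (allF m 2))) *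
      ori (f (ι (allF (sgn_par m) 0))) (f (ι (allF (sgn_par m) 1)))
        (f (ι (allF (sgn_par m) 2))) := by
  obtain ⟨e1, e2, -⟩ := sgn_comb1 m hm
  obtain ⟨a1, a2, a3, a4, a5⟩ := sgn_comb2 m hm
  obtain ⟨n1, n2, n3, n4, n5⟩ := sgn_comb3 m hm
  have r1 := frag_sign_rot (fun i => f (ι (allF m i))) (sgn_r m)
  have r2 := frag_sign_rot (fun i => f (ι (allF (sgn_par m) i))) (sgn_s m)
  have hw' : ¬ inT (f (ι (allF m (sgn_r m)))) (f (ι (allF m (sgn_r m + 1))))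
      (f (ι (allF m (sgn_r m + 2)))) (f (ι (allF (sgn_par m) (sgn_s m + 2)))) := by
    intro hc
    exact emp h m _ n4 ((frag_sign_rotT (fun i => f (ι (allF m i))) (sgn_r m) _).1 hc)
  have hw : ¬ inT (f (ι (allF m (sgn_r m)))) (f (ι (allF m (sgn_r m + 1))))
      (f (ι (allF (sgn_par m) (sgn_s m + 2)))) (f (ι (allF m (sgn_r m + 2)))) := by
    intro hc
    have hc' := frag_sign_swap _ _ _ _ hc
    rw [← e1, ← e2] at hc'
    exact emp h _ _ n5
      ((frag_sign_rotT (fun i => f (ι (allF (sgn_par m) i))) (sgn_s m) _).1 hc')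
  have key := opp h.drw h.sym (h.adj _ _ a1) (h.adj _ _ a2) (h.adj _ _ a3) (h.adj _ _ a4)
    (h.adj _ _ a5) (fun hh => n1 (h.inj hh)) (fun hh => n2 (h.inj hh)) (fun hh => n3 (h.inj hh))
    (fun hh => n4 _ (h.inj hh).symm) (fun hh => n4 _ (h.inj hh).symm)
    (fun hh => n4 _ (h.inj hh).symm) hw hw'
  have r3 : ori (f (ι (allF m (sgn_r m)))) (f (ι (allF m (sgn_r m + 1))))
      (f (ι (allF (sgn_par m) (sgn_s m + 2)))) =
      - ori (f (ι (allF (sgn_par m) 0))) (f (ι (allF (sgn_par m) 1)))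
        (f (ι (allF (sgn_par m) 2))) := by
    rw [← r2, e1, e2]
    unfold ori; ring
  rw [r1, r3] at key
  linarith

theorem sgn {V : Type} {A : V → V → Prop} {f : V → Pt} {ι : Fin 7 → V} (h : FC A f ι) :
    (∀ m, 0 < ori (f (ι (allF m 0))) (f (ι (allF m 1))) (f (ι (allF m 2)))) ∨
      (∀ m, ori (f (ι (allF m 0))) (f (ι (allF m 1))) (f (ι (allF m 2))) < 0) := by
  set O : Fin 9 → ℝ := fun m =>
    ori (f (ι (allF m 0))) (f (ι (allF m 1))) (f (ι (allF m 2))) with hO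
  have step : ∀ m, m ≠ 0 → 0 < O m * O (sgn_par m) := fun m hm => sgn_step h m hm
  have h0 : O 0 ≠ 0 := by
    intro hc
    have h9 := step 1 (by decide)
    have h9' : sgn_par 1 = 0 := by decide
    rw [h9', hc, mul_zero] at h9
    exact lt_irrefl _ h9
  have all : ∀ n : ℕ, ∀ m : Fin 9, sgn_d m ≤ n → 0 < O m * O 0 := by
    intro n
    induction n with
    | zero =>
      intro m hm
      by_cases hm0 : m = 0
      · subst hm0
        exact mul_self_pos.2 h0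
      · have := (sgn_comb1 m hm0).2.2
        omega
    | succ n ih =>
      intro m hm
      by_cases hm0 : m = 0
      · subst hm0
        exact mul_self_pos.2 h0
      · have h1 := (sgn_comb1 m hm0).2.2
        have h2 := ih (sgn_par m) (by omega)
        have h3 := step m hm0
        have h4 : 0 < (O m * O 0) * (O (sgn_par m))^2 := by nlinarith [mul_pos h2 h3]
        exact (pos_iff_pos_of_mul_pos h4).2 (by
          have : O (sgn_par m) ≠ 0 := by
            intro hc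
            rw [hc, mul_zero] at h3
            exact lt_irrefl _ h3
          positivity)
  rcases lt_or_gt_of_ne h0 with hlt | hgt
  · right
    intro m
    have := all _ m le_rfl
    show O m < 0
    by_contra hc
    push Not at hc
    nlinarith
  · left
    intro m
    have := all _ m le_rfl
    show 0 < O m
    by_contra hc
    push Not at hc
    nlinarith

theorem mono_gen {V : Type} {A : V → V → Prop} {f : V → Pt} {ι : Fin 7 → V} (h : FC A f ι)
    {n : ℕ} [NeZero n] (i : Fin 7) (L : Fin n → Fin 7)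
    (hL : ∀ k : Fin n, ∃ m : Fin 9, (allF m 0 = i ∧ allF m 1 = L (k+1) ∧ allF m 2 = L k) ∨
      (allF m 1 = i ∧ allF m 2 = L (k+1) ∧ allF m 0 = L k) ∨
      (allF m 2 = i ∧ allF m 0 = L (k+1) ∧ allF m 1 = L k))
    (hadj : ∀ k, ha i (L k) = true) :
    (∃ j, ha i j = true ∧ (f (ι j)).2 < (f (ι i)).2) ∧
      ∃ j, ha i j = true ∧ (f (ι i)).2 < (f (ι j)).2 := by
  have hval : ∀ k : Fin n, ∃ m : Fin 9,
      ori (f (ι i)) (f (ι (L k))) (f (ι (L (k+1)))) =
        - ori (f (ι (allF m 0))) (f (ι (allF m 1))) (f (ι (allF m 2))) := by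
    intro k
    obtain ⟨m, hm⟩ := hL k
    refine ⟨m, ?_⟩
    rw [frag_mono_sw]
    congr 1
    rcases hm with ⟨h1, h2, h3⟩ | ⟨h1, h2, h3⟩ | ⟨h1, h2, h3⟩
    · rw [h1, h2, h3]
    · rw [h1, h2, h3]
      exact frag_mono_rot _ _ _
    · rw [h1, h2, h3]
      exact (frag_mono_rot _ _ _).symm
  have hf : (∃ k, (f (ι (L k))).2 < (f (ι i)).2) ∧ ∃ k, (f (ι i)).2 < (f (ι (L k))).2 := by
    refine fan (f (ι i)) (fun k => f (ι (L k))) ?_
    rcases sgn h with hs | hs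
    · right
      intro k
      obtain ⟨m, hm⟩ := hval k
      have := hs m
      rw [hm]
      linarith
    · left
      intro k
      obtain ⟨m, hm⟩ := hval k
      have := hs m
      rw [hm]
      linarith
  obtain ⟨⟨k, hk⟩, ⟨k', hk'⟩⟩ := hf
  exact ⟨⟨L k, hadj k, hk⟩, ⟨L k', hadj k', hk'⟩⟩

theorem mono {V : Type} {A : V → V → Prop} {f : V → Pt} {ι : Fin 7 → V} (h : FC A f ι)
    (i : Fin 7) (hi : 3 ≤ i.val) :
    (∃ j, ha i j = true ∧ (f (ι j)).2 < (f (ι i)).2) ∧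
      ∃ j, ha i j = true ∧ (f (ι i)).2 < (f (ι j)).2 := by
  fin_cases i
  · exact absurd hi (by decide)
  · exact absurd hi (by decide)
  · exact absurd hi (by decide)
  · exact mono_gen h 3 (![0, 6, 4, 5, 1] : Fin 5 → Fin 7) (by decide) (by decide)
  · exact mono_gen h 4 (![2, 5, 3, 6] : Fin 4 → Fin 7) (by decide) (by decide)
  · exact mono_gen h 5 (![1, 3, 4, 2] : Fin 4 → Fin 7) (by decide) (by decide)
  · exact mono_gen h 6 (![0, 2, 4, 3] : Fin 4 → Fin 7) (by decide) (by decide)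

/-! ### the combinatorial heart -/

/-- marked faces: apex and special edge -/
def mF : Fin 8 → Fin 3 → Fin 7 :=
  ![![5, 1, 2], ![5, 1, 3], ![2, 4, 5], ![3, 4, 5], ![2, 4, 6], ![3, 4, 6], ![2, 0, 6], ![3, 0, 6]]

def faces7 : List (ℕ × ℕ × ℕ) := [(5, 1, 2), (5, 1, 3), (2, 4, 5), (3, 4, 5), (2, 4, 6), (3, 4, 6),
  (2, 0, 6), (3, 0, 6)]

/-- every marked face meets both sides -/
def mixed (N : ℕ) : Bool := faces7.all (fun t =>
    (N.testBit t.1 || N.testBit t.2.1 || N.testBit t.2.2) &&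
      !(N.testBit t.1 && N.testBit t.2.1 && N.testBit t.2.2))

/-- all special edges are split, or a special edge is split and `1, 2` are both outside of `N` -/
def bad (N : ℕ) : Bool :=
  mixed N && (faces7.all (fun t => N.testBit t.2.1 != N.testBit t.2.2) ||
    (!N.testBit 1 && !N.testBit 2 && faces7.any (fun t => N.testBit t.2.1 != N.testBit t.2.2)))

def tabN : List (ℕ × ℕ) := [(19, 16), (49, 48), (96, 32), (97, 32), (98, 64), (104, 104), (112, 112)]
def tabC : List (ℕ × ℕ) := [(29, 64), (108, 16)]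

theorem tab1 : ∀ N < 128, bad N = true → (∃ p ∈ tabN, p.1 = N) ∨ ∃ p ∈ tabC, p.1 = N := by
  decide +kernel

theorem tab2 : ∀ p ∈ tabN, (∃ i : Fin 7, p.2.testBit i.val = true) ∧
    (∀ i : Fin 7, p.2.testBit i.val = true → p.1.testBit i.val = true ∧ 3 ≤ i.val) ∧
    (∀ i j : Fin 7, p.2.testBit i.val = true → p.1.testBit j.val = true →
      ha i j = true → p.2.testBit j.val = true) := by
  decide +kernel

theorem tab3 : ∀ p ∈ tabC, (∃ i : Fin 7, p.2.testBit i.val = true) ∧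
    (∀ i : Fin 7, p.2.testBit i.val = true → p.1.testBit i.val = false ∧ 3 ≤ i.val) ∧
    (∀ i j : Fin 7, p.2.testBit i.val = true → p.1.testBit j.val = false →
      ha i j = true → p.2.testBit j.val = true) := by
  decide +kernel

theorem tab4 : ∀ t ∈ faces7, ∃ m : Fin 8, (mF m 0).val = t.1 ∧ (mF m 1).val = t.2.1 ∧
    (mF m 2).val = t.2.2 := by
  decide +kernel

theorem tab5 : ∀ m : Fin 8, ((mF m 0).val, (mF m 1).val, (mF m 2).val) ∈ faces7 := by
  decide +kernel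

/-- no bad side -/
theorem nobad (y : Fin 7 → ℝ)
    (hy : ∀ i : Fin 7, 3 ≤ i.val → (∃ j, ha i j = true ∧ y j < y i) ∧
      ∃ j, ha i j = true ∧ y i < y j) :
    bad (Nat.ofBits (fun i : Fin 7 => decide (y i < 0))) = false := by
  classical
  set N : ℕ := Nat.ofBits (fun i : Fin 7 => decide (y i < 0)) with hN
  have hlt : N < 128 := Nat.ofBits_lt_two_pow _
  have hbit : ∀ i : Fin 7, N.testBit i.val = decide (y i < 0) := by
    intro i
    rw [hN, Nat.testBit_ofBits_lt _ _ i.isLt]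
  by_contra hcon
  rw [Bool.not_eq_false] at hcon
  rcases tab1 N hlt hcon with ⟨p, hp, hpN⟩ | ⟨p, hp, hpN⟩
  · obtain ⟨⟨i0, hi0⟩, hsub, hcl⟩ := tab2 p hp
    rw [hpN] at hsub hcl
    obtain ⟨v, hv, hmin⟩ := Finset.exists_min_image
      (Finset.univ.filter fun i : Fin 7 => p.2.testBit i.val = true) y
      ⟨i0, by simp only [Finset.mem_filter, Finset.mem_univ, true_and]; exact hi0⟩
    simp only [Finset.mem_filter, Finset.mem_univ, true_and] at hv hmin
    obtain ⟨hvN, hv3⟩ := hsub v hv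
    have hvneg : y v < 0 := by
      have := hbit v
      rw [hvN] at this
      exact of_decide_eq_true this.symm
    obtain ⟨j, hj, hjv⟩ := (hy v hv3).1
    have hjN : N.testBit j.val = true :=
      (hbit j).trans (decide_eq_true (hjv.trans hvneg))
    have hjK := hcl v j hv hjN hj
    exact absurd (hmin j hjK) (not_le.2 hjv)
  · obtain ⟨⟨i0, hi0⟩, hsub, hcl⟩ := tab3 p hp
    rw [hpN] at hsub hcl
    obtain ⟨v, hv, hmax⟩ := Finset.exists_max_image
      (Finset.univ.filter fun i : Fin 7 => p.2.testBit i.val = true) y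
      ⟨i0, by simp only [Finset.mem_filter, Finset.mem_univ, true_and]; exact hi0⟩
    simp only [Finset.mem_filter, Finset.mem_univ, true_and] at hv hmax
    obtain ⟨hvN, hv3⟩ := hsub v hv
    have hvneg : ¬ y v < 0 := by
      have := hbit v
      rw [hvN] at this
      exact of_decide_eq_false this.symm
    obtain ⟨j, hj, hjv⟩ := (hy v hv3).2
    have hjN : N.testBit j.val = false :=
      (hbit j).trans (decide_eq_false (fun h => hvneg (hjv.trans h)))
    have hjK := hcl v j hv hjN hj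
    exact absurd (hmax j hjK) (not_le.2 hjv)

theorem fin3c : ∀ c : Fin 3, c = 0 ∨ c = 1 ∨ c = 2 := by decide

/-- the combinatorial lemma: if all marked faces are crossed then not all special edges are crossed,
and if moreover the outer special edge is not crossed then no special edge is crossed -/
theorem comb7_half (y : Fin 7 → ℝ)
    (hy : ∀ i : Fin 7, 3 ≤ i.val → (∃ j, ha i j = true ∧ y j < y i) ∧
      ∃ j, ha i j = true ∧ y i < y j)
    (hm : ∀ m : Fin 8, (∃ i, y (mF m i) < 0) ∧ ∃ i, 0 < y (mF m i)) :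
    (∃ m, ¬ y (mF m 1) * y (mF m 2) < 0) ∧
      (0 ≤ y 1 → 0 ≤ y 2 → ∀ m, ¬ y (mF m 1) * y (mF m 2) < 0) := by
  classical
  have hb := nobad y hy
  set N : ℕ := Nat.ofBits (fun i : Fin 7 => decide (y i < 0)) with hN
  have hbit : ∀ i : Fin 7, N.testBit i.val = decide (y i < 0) := by
    intro i
    rw [hN, Nat.testBit_ofBits_lt _ _ i.isLt]
  have hspl : ∀ a b : Fin 7, y a * y b < 0 → (N.testBit a.val != N.testBit b.val) = true := by
    intro a b hab
    rw [hbit, hbit]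
    rcases mul_neg_iff.1 hab with ⟨h1, h2⟩ | ⟨h1, h2⟩
    · rw [decide_eq_false (not_lt.2 h1.le), decide_eq_true h2]; rfl
    · rw [decide_eq_true h1, decide_eq_false (not_lt.2 h2.le)]; rfl
  have hmix : mixed N = true := by
    unfold mixed
    rw [List.all_eq_true]
    intro t ht
    obtain ⟨m, hm0, hm1, hm2⟩ := tab4 t ht
    obtain ⟨⟨a, ha'⟩, ⟨b, hb'⟩⟩ := hm m
    have q0 : N.testBit t.1 = decide (y (mF m (0 : Fin 3)) < 0) := by
      rw [← hm0]; exact hbit _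
    have q1 : N.testBit t.2.1 = decide (y (mF m (1 : Fin 3)) < 0) := by
      rw [← hm1]; exact hbit _
    have q2 : N.testBit t.2.2 = decide (y (mF m (2 : Fin 3)) < 0) := by
      rw [← hm2]; exact hbit _
    rw [q0, q1, q2]
    have hb'' : ¬ y (mF m b) < 0 := not_lt.2 hb'.le
    simp only [Bool.and_eq_true, Bool.or_eq_true, decide_eq_true_eq, Bool.not_eq_true',
      Bool.and_eq_false_iff, decide_eq_false_iff_not]
    constructor
    · rcases fin3c a with rfl | rfl | rfl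
      · exact Or.inl (Or.inl ha')
      · exact Or.inl (Or.inr ha')
      · exact Or.inr ha'
    · rcases fin3c b with rfl | rfl | rfl
      · exact Or.inl (Or.inl hb'')
      · exact Or.inl (Or.inr hb'')
      · exact Or.inr hb''
  unfold bad at hb
  rw [hmix, Bool.true_and, Bool.or_eq_false_iff] at hb
  obtain ⟨hb1, hb2⟩ := hb
  constructor
  · by_contra hcon
    push Not at hcon
    have : (faces7.all (fun t => N.testBit t.2.1 != N.testBit t.2.2)) = true := by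
      rw [List.all_eq_true]
      intro t ht
      obtain ⟨m, -, hm1, hm2⟩ := tab4 t ht
      rw [← hm1, ← hm2]
      exact hspl _ _ (hcon m)
    rw [this] at hb1
    exact absurd hb1 (by decide)
  · intro h1 h2 m hmm
    have e1 : N.testBit 1 = false := by
      have := hbit 1
      rw [decide_eq_false (not_lt.2 h1)] at this
      exact this
    have e2 : N.testBit 2 = false := by
      have := hbit 2
      rw [decide_eq_false (not_lt.2 h2)] at this
      exact this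
    rw [e1, e2] at hb2
    have : (faces7.any (fun t => N.testBit t.2.1 != N.testBit t.2.2)) = true := by
      rw [List.any_eq_true]
      exact ⟨_, tab5 m, hspl _ _ hmm⟩
    rw [this] at hb2
    exact absurd hb2 (by decide)

theorem comb7 (y : Fin 7 → ℝ)
    (hy : ∀ i : Fin 7, 3 ≤ i.val → (∃ j, ha i j = true ∧ y j < y i) ∧
      ∃ j, ha i j = true ∧ y i < y j)
    (hm : ∀ m : Fin 8, (∃ i, y (mF m i) < 0) ∧ ∃ i, 0 < y (mF m i)) :
    (∃ m, ¬ y (mF m 1) * y (mF m 2) < 0) ∧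
      (¬ y 1 * y 2 < 0 → ∀ m, ¬ y (mF m 1) * y (mF m 2) < 0) := by
  refine ⟨(comb7_half y hy hm).1, fun h => ?_⟩
  rw [not_lt, mul_nonneg_iff] at h
  rcases h with ⟨h0, h1⟩ | ⟨h0, h1⟩
  · exact (comb7_half y hy hm).2 h0 h1
  · have := (comb7_half (fun i => - y i) ?_ ?_).2 (neg_nonneg.2 h0) (neg_nonneg.2 h1)
    · intro m hmm
      exact this m (by rw [neg_mul_neg]; exact hmm)
    · intro i hi
      obtain ⟨⟨j, hj, hj'⟩, ⟨k, hk, hk'⟩⟩ := hy i hi
      exact ⟨⟨k, hk, neg_lt_neg hk'⟩, ⟨j, hj, neg_lt_neg hj'⟩⟩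
    · intro m
      obtain ⟨⟨i, hi⟩, ⟨j, hj⟩⟩ := hm m
      exact ⟨⟨j, neg_neg_of_pos hj⟩, ⟨i, neg_pos_of_neg hi⟩⟩

/-! ### position of the content of a face -/

def blob_root : Fin 9 → Fin 7 := ![2, 0, 0, 0, 1, 0, 0, 0, 1]

def blob_nh : Fin 9 → Fin 7 → Fin 7 :=
  ![![0, 0, 0, 0, 2, 2, 2],
    ![0, 0, 0, 0, 2, 0, 0],
    ![0, 0, 0, 0, 0, 0, 0],
    ![0, 0, 0, 0, 0, 1, 0],
    ![0, 0, 1, 0, 2, 1, 0],
    ![0, 0, 0, 0, 3, 0, 0],
    ![0, 0, 0, 0, 0, 0, 0],
    ![0, 0, 0, 0, 0, 1, 0],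
    ![0, 0, 0, 1, 3, 1, 0]]

def blob_D : Fin 9 → Fin 7 → ℕ :=
  ![![0, 0, 0, 0, 1, 1, 1],
    ![0, 0, 1, 0, 2, 0, 1],
    ![0, 1, 1, 0, 0, 0, 1],
    ![0, 1, 1, 0, 0, 2, 0],
    ![0, 0, 1, 0, 2, 1, 0],
    ![0, 0, 0, 1, 2, 0, 1],
    ![0, 1, 0, 1, 0, 0, 1],
    ![0, 1, 0, 1, 0, 2, 0],
    ![0, 0, 0, 1, 2, 1, 0]]

theorem blob_tab : ∀ m : Fin 9, ∀ l : Fin 7, (∀ i : Fin 3, l ≠ allF m i) →
    l = blob_root m ∨ ((∀ i : Fin 3, blob_nh m l ≠ allF m i) ∧
      ha l (blob_nh m l) = true ∧ ha (blob_nh m l) l = true ∧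
      blob_D m (blob_nh m l) < blob_D m l) := by
  decide +kernel

theorem blob_at : ∀ m : Fin 9, ∀ i : Fin 3, ∃ l : Fin 7,
    (∀ j : Fin 3, l ≠ allF m j) ∧ ha l (allF m i) = true := by
  decide +kernel

theorem blob_r : ∀ m : Fin 9, ∀ i : Fin 3, blob_root m ≠ allF m i := by
  decide +kernel

theorem blob_f : ∀ m : Fin 9, ha (allF m 0) (allF m 1) = true ∧
    ha (allF m 0) (allF m 2) = true ∧
    ha (allF m 1) (allF m 2) = true ∧
    allF m 0 ≠ allF m 1 ∧ allF m 0 ≠ allF m 2 ∧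
    allF m 1 ≠ allF m 2 := by
  decide +kernel

/-- the vertices outside the face -/
def blob_Z {V : Type} (ι : Fin 7 → V) (m : Fin 9) : Set V :=
  {x | ∃ l : Fin 7, (∀ i : Fin 3, l ≠ allF m i) ∧ ι l = x}

theorem blob_cn {V : Type} {A : V → V → Prop} {f : V → Pt} {ι : Fin 7 → V} (h : FC A f ι)
    (m : Fin 9) : Cn A (blob_Z ι m) := by
  intro S hS hne hcl
  -- the root lies in S
  have h1 : ∀ n : ℕ, ∀ l : Fin 7, blob_D m l < n → (∀ i : Fin 3, l ≠ allF m i) →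
      ι l ∈ S → ι (blob_root m) ∈ S := by
    intro n
    induction n with
    | zero => intro l hl; omega
    | succ n ih =>
      intro l hl hf hlS
      rcases blob_tab m l hf with h2 | ⟨h2, h3, h4, h5⟩
      · rw [← h2]; exact hlS
      · exact ih _ (by omega) h2 (hcl _ hlS _ ⟨_, h2, rfl⟩ (h.adj _ _ h3))
  have h6 : ι (blob_root m) ∈ S := by
    obtain ⟨x, hx⟩ := hne
    obtain ⟨l, hl, rfl⟩ := hS hx
    exact h1 _ l (Nat.lt_succ_self _) hl hx
  have h7 : ∀ n : ℕ, ∀ l : Fin 7, blob_D m l < n → (∀ i : Fin 3, l ≠ allF m i) →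
      ι l ∈ S := by
    intro n
    induction n with
    | zero => intro l hl; omega
    | succ n ih =>
      intro l hl hf
      rcases blob_tab m l hf with h2 | ⟨h2, h3, h4, h5⟩
      · rw [h2]; exact h6
      · exact hcl _ (ih _ (by omega) h2) _ ⟨_, hf, rfl⟩ (h.adj _ _ h4)
  apply Set.Subset.antisymm hS
  rintro x ⟨l, hl, rfl⟩
  exact h7 _ l (Nat.lt_succ_self _) hl

theorem blob_att {V : Type} {A : V → V → Prop} {f : V → Pt} {ι : Fin 7 → V} (h : FC A f ι)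
    (m : Fin 9) (i : Fin 3) : At A (blob_Z ι m) (ι (allF m i)) := by
  obtain ⟨l, hl, ha⟩ := blob_at m i
  exact ⟨ι l, ⟨l, hl, rfl⟩, h.adj _ _ ha⟩

theorem blob_nm {V : Type} {A : V → V → Prop} {f : V → Pt} {ι : Fin 7 → V} (h : FC A f ι)
    (m : Fin 9) (i : Fin 3) : ι (allF m i) ∉ blob_Z ι m := by
  rintro ⟨l, hl, he⟩
  exact hl i (h.inj he)

theorem blob {V : Type} {A : V → V → Prop} {f : V → Pt} {ι : Fin 7 → V} (h : FC A f ι)
    (m : Fin 9) {C : Set V} (hC : Cn A C) (hCι : ∀ i, ι i ∉ C)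
    (hc : ∃ d ∈ C, ∀ i : Fin 3, A d (ι (allF m i))) :
    ∀ x ∈ C, inT (f (ι (allF m 0))) (f (ι (allF m 1)))
      (f (ι (allF m 2))) (f x) := by
  obtain ⟨d, hd, hda⟩ := hc
  obtain ⟨f1, f2, f3, f4, f5, f6⟩ := blob_f m
  have hadj : ∀ i j : Fin 7, ha i j = true → A (ι i) (ι j) := fun i j hij =>
    h.adj i j hij
  have hne : ∀ i : Fin 7, ι i ≠ d := fun i e => hCι i (e ▸ hd)
  have h4 : K4 A (ι (allF m 0)) (ι (allF m 1)) (ι (allF m 2)) d :=
    ⟨hadj _ _ f1, hadj _ _ f2, h.sym _ _ (hda 0), hadj _ _ f3, h.sym _ _ (hda 1),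
      h.sym _ _ (hda 2), fun e => f4 (h.inj e), fun e => f5 (h.inj e), hne _,
      fun e => f6 (h.inj e), hne _, hne _⟩
  have hout : ∃ x ∈ blob_Z ι m, ¬ inT (f (ι (allF m 0))) (f (ι (allF m 1)))
      (f (ι (allF m 2))) (f x) :=
    ⟨ι (blob_root m), ⟨_, blob_r m, rfl⟩, emp h m (blob_root m) (blob_r m)⟩
  have hdin : inT (f (ι (allF m 0))) (f (ι (allF m 1)))
      (f (ι (allF m 2))) (f d) := by
    refine lemX h.drw h.sym h4 (blob_cn h m) (blob_att h m 0) (blob_att h m 1)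
      (blob_att h m 2) (blob_nm h m 0) (blob_nm h m 1) (blob_nm h m 2) ?_ hout
    rintro ⟨l, _, he⟩
    exact hCι l (he ▸ hd)
  have hS := hC {x | x ∈ C ∧ inT (f (ι (allF m 0))) (f (ι (allF m 1)))
      (f (ι (allF m 2))) (f x)} (fun x hx => hx.1) ⟨d, hd, hdin⟩ (by
    rintro x ⟨hx, hxin⟩ y hy hxy
    refine ⟨hy, ?_⟩
    have hney : ∀ i : Fin 7, y ≠ ι i := fun i e => hCι i (e ▸ hy)
    exact sep h.drw (hadj _ _ f1) (hadj _ _ f3) (h.sym _ _ (hadj _ _ f2)) hxy hxin (hney _)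
      (hney _) (hney _))
  intro x hx
  rw [← hS] at hx
  exact hx.2

end Pool.Agent.K1H8.FT
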