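import Pool.Agent.Helper745.FS.B2
import Pool.Agent.K1H8.FT.H7

/-!
# A drawing of the bipyramid in every triangle
-/

set_option autoImplicit false

namespace Pool.Agent.K1H8.FT

open Pool.Agent.Helper745.FSub

/-- the bipyramid with all inner faces, consistently oriented -/
@[reducible] def hB : Bse where
  I := 4
  M := 9
  gap := 0
  adj := ha
  face := allF
  ra := fun _ => 0
  rc := fun _ => 0

/-- table of the positively oriented triples -/
def b7_PT : ℕ :=
  21910288253709722060823841204755198240693924600564734735197857993246904810126878002806716707098344960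

/-- certified positive -/
def b7_P (p q r : ℕ) : Bool := Nat.testBit b7_PT (49 * p + 7 * q + r)

/-- the positions have the orientations of the table -/
def OK7 (bp : Fin 7 → Pt) : Prop :=
  ∀ p q r : Fin 7, b7_P p.val q.val r.val = true → 0 < ori (bp p) (bp q) (bp r)

/-- certified nonnegative -/
def b7_NN (p q r : ℕ) : Bool := b7_P p q r || (Nat.beq r p || Nat.beq r q)

/-- search for a separating pair -/
def b7_any (f : ℕ → ℕ → Bool) : Bool :=
  (List.range 7).any (fun p => (List.range 7).any (fun q => f p q))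

def b7_facePos (p q a b c : ℕ) : Bool :=
  b7_NN p q a && (b7_NN p q b && (b7_NN p q c &&
    (b7_P p q a || (b7_P p q b || b7_P p q c))))

def b7_faceNP (p q a b c : ℕ) : Bool :=
  b7_NN q p a && (b7_NN q p b && b7_NN q p c)

def b7_cE (i j k l : ℕ) : Bool := b7_any (fun p q =>
  b7_P p q i && (b7_P p q j && (b7_NN q p k && b7_NN q p l)))

def b7_cV (i j k : ℕ) : Bool := b7_any (fun p q =>
  b7_P p q k && (b7_NN q p i && b7_NN q p j))

def b7_cW (i j k : ℕ) : Bool := b7_any (fun p q =>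
  b7_P p q i && (b7_P p q j && b7_NN q p k))

def b7_cF (a b c i j : ℕ) : Bool := b7_any (fun p q =>
  b7_facePos p q a b c && (b7_NN q p i && b7_NN q p j))

def b7_cFF (a b c a' b' c' : ℕ) : Bool := b7_any (fun p q =>
  b7_facePos p q a b c && b7_faceNP p q a' b' c')

def b7_cI (i j : ℕ) : Bool := b7_any (fun p q =>
  b7_P p q i && b7_NN q p j)

theorem b7_ckE : ∀ i j : Fin 7, ha i j = true →
    ∀ k l : Fin 7, (ha k l = true ∧ i ≠ k ∧ i ≠ l ∧ j ≠ k ∧ j ≠ l) →
    (b7_cE i.val j.val k.val l.val || b7_cE k.val l.val i.val j.val) = true := by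
  decide +kernel

theorem b7_ckV : ∀ i j : Fin 7, ha i j = true →
    ∀ k : Fin 7, k ≠ i → k ≠ j →
    (b7_cV i.val j.val k.val || b7_cW i.val j.val k.val) = true := by
  decide +kernel

theorem b7_ckF : ∀ m : Fin 9, ∀ i j : Fin 7, ha i j = true →
    b7_cF (allF m 0).val (allF m 1).val (allF m 2).val i.val j.val = true := by
  decide +kernel

theorem b7_ckFF : ∀ m m' : Fin 9, m ≠ m' →
    (b7_cFF (allF m 0).val (allF m 1).val (allF m 2).val
      (allF m' 0).val (allF m' 1).val (allF m' 2).val ||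
    b7_cFF (allF m' 0).val (allF m' 1).val (allF m' 2).val
      (allF m 0).val (allF m 1).val (allF m 2).val) = true := by
  decide +kernel

theorem b7_ckInn : ∀ k : Fin 4,
    (b7_P 0 1 (Fin.natAdd 3 k).val && (b7_P 1 2 (Fin.natAdd 3 k).val &&
      b7_P 2 0 (Fin.natAdd 3 k).val)) = true := by
  decide +kernel

theorem b7_ckFin : ∀ m : Fin 9,
    (b7_facePos 0 1 (allF m 0).val (allF m 1).val (allF m 2).val &&
    (b7_facePos 1 2 (allF m 0).val (allF m 1).val (allF m 2).val &&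
    b7_facePos 2 0 (allF m 0).val (allF m 1).val (allF m 2).val)) = true := by
  decide +kernel

theorem b7_ckInj : ∀ i j : Fin 7, i ≠ j → b7_cI i.val j.val = true := by
  decide +kernel

theorem b7_ckVf : ∀ i : Fin 7, ∃ j : Fin 7, ha i j = true := by
  decide +kernel

theorem b7_any_spec {f : ℕ → ℕ → Bool} (h : b7_any f = true) :
    ∃ p q : Fin 7, f p.val q.val = true := by
  unfold b7_any at h
  rw [List.any_eq_true] at h
  obtain ⟨p, hp, h⟩ := h
  rw [List.any_eq_true] at h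
  obtain ⟨q, hq, h⟩ := h
  exact ⟨⟨p, List.mem_range.1 hp⟩, ⟨q, List.mem_range.1 hq⟩, h⟩

theorem b7_pos {bp : Fin 7 → Pt} (h : OK7 bp) {p q r : Fin 7}
    (hp : b7_P p.val q.val r.val = true) : 0 < ori (bp p) (bp q) (bp r) :=
  h p q r hp

theorem b7_nn {bp : Fin 7 → Pt} (h : OK7 bp) {p q r : Fin 7}
    (hp : b7_NN p.val q.val r.val = true) : 0 ≤ ori (bp p) (bp q) (bp r) := by
  unfold b7_NN at hp
  rw [Bool.or_eq_true, Bool.or_eq_true] at hp
  rcases hp with hp | hp | hp
  · exact (b7_pos h hp).le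
  · have e : r = p := Fin.ext (Nat.eq_of_beq_eq_true hp)
    rw [e]
    unfold ori
    apply le_of_eq
    ring
  · have e : r = q := Fin.ext (Nat.eq_of_beq_eq_true hp)
    rw [e]
    unfold ori
    apply le_of_eq
    ring

theorem b7_np {bp : Fin 7 → Pt} (h : OK7 bp) {p q r : Fin 7}
    (hp : b7_NN q.val p.val r.val = true) : ori (bp p) (bp q) (bp r) ≤ 0 := by
  have h1 := b7_nn h hp
  rw [base_frg_swap] at h1
  linarith

theorem b7_face_pos {bp : Fin 7 → Pt} (h : OK7 bp)
    {p q a b c : Fin 7}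
    (hc : b7_facePos p.val q.val a.val b.val c.val = true) {x : Pt}
    (h1 : 0 < ori (bp a) (bp b) x) (h2 : 0 < ori (bp b) (bp c) x) (h3 : 0 < ori (bp c) (bp a) x) :
    0 < ori (bp p) (bp q) x := by
  unfold b7_facePos at hc
  rw [Bool.and_eq_true, Bool.and_eq_true, Bool.and_eq_true, Bool.or_eq_true, Bool.or_eq_true] at hc
  obtain ⟨ha, hb, hcc, hs⟩ := hc
  have ha' := b7_nn h ha
  have hb' := b7_nn h hb
  have hc' := b7_nn h hcc
  have e := base_frg_bary (bp a) (bp b) (bp c) (bp p) (bp q) x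
  have hS : 0 < ori (bp a) (bp b) x + ori (bp b) (bp c) x + ori (bp c) (bp a) x := by linarith
  have k1 := mul_nonneg h2.le ha'
  have k2 := mul_nonneg h3.le hb'
  have k3 := mul_nonneg h1.le hc'
  have hR : 0 < (ori (bp a) (bp b) x + ori (bp b) (bp c) x + ori (bp c) (bp a) x) *
      ori (bp p) (bp q) x := by
    rw [e]
    rcases hs with hs | hs | hs
    · have := mul_pos h2 (b7_pos h hs)
      linarith
    · have := mul_pos h3 (b7_pos h hs)
      linarith
    · have := mul_pos h1 (b7_pos h hs)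
      linarith
  exact (pos_iff_pos_of_mul_pos hR).1 hS

theorem b7_face_np {bp : Fin 7 → Pt} (h : OK7 bp)
    {p q a b c : Fin 7}
    (hc : b7_faceNP p.val q.val a.val b.val c.val = true) {x : Pt}
    (h1 : 0 < ori (bp a) (bp b) x) (h2 : 0 < ori (bp b) (bp c) x) (h3 : 0 < ori (bp c) (bp a) x) :
    ori (bp p) (bp q) x ≤ 0 := by
  unfold b7_faceNP at hc
  rw [Bool.and_eq_true, Bool.and_eq_true] at hc
  obtain ⟨ha, hb, hcc⟩ := hc
  have ha' := b7_np h ha
  have hb' := b7_np h hb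
  have hc' := b7_np h hcc
  have e := base_frg_bary (bp a) (bp b) (bp c) (bp p) (bp q) x
  have hS : 0 < ori (bp a) (bp b) x + ori (bp b) (bp c) x + ori (bp c) (bp a) x := by linarith
  have k1 := mul_nonpos_of_nonneg_of_nonpos h2.le ha'
  have k2 := mul_nonpos_of_nonneg_of_nonpos h3.le hb'
  have k3 := mul_nonpos_of_nonneg_of_nonpos h1.le hc'
  by_contra hcon
  push Not at hcon
  have := mul_pos hS hcon
  linarith

theorem b7_disj {bp : Fin 7 → Pt} (h : OK7 bp)
    {i j k l : Fin 7} (hc : b7_cE i.val j.val k.val l.val = true) :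
    Disjoint (segment ℝ (bp i) (bp j)) (segment ℝ (bp k) (bp l)) := by
  unfold b7_cE at hc
  obtain ⟨p, q, hc⟩ := b7_any_spec hc
  rw [Bool.and_eq_true, Bool.and_eq_true, Bool.and_eq_true] at hc
  obtain ⟨h1, h2, h3, h4⟩ := hc
  rw [Set.disjoint_left]
  intro x hx hx'
  have k1 := base_frg_seg_pos hx (b7_pos h h1) (b7_pos h h2)
  have k2 := base_frg_seg_np hx' (b7_np h h3) (b7_np h h4)
  linarith

theorem b7_fe {bp : Fin 7 → Pt} (h : OK7 bp) (m : Fin 9)
    (i j : Fin 7) (hij : ha i j = true) (p : Pt)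
    (hp : p ∈ segment ℝ (bp i) (bp j)) : ¬ inP (fun c => bp (allF m c)) p := by
  rintro ⟨h1, h2, h3⟩
  have hc := b7_ckF m i j hij
  unfold b7_cF at hc
  obtain ⟨a, b, hc⟩ := b7_any_spec hc
  rw [Bool.and_eq_true, Bool.and_eq_true] at hc
  obtain ⟨h4, h5, h6⟩ := hc
  have k1 := b7_face_pos h h4 h1 h2 h3
  have k2 := base_frg_seg_np hp (b7_np h h5) (b7_np h h6)
  linarith

theorem b7_ff {bp : Fin 7 → Pt} (h : OK7 bp) (m m' : Fin 9)
    (hc : b7_cFF (allF m 0).val (allF m 1).val (allF m 2).val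
      (allF m' 0).val (allF m' 1).val (allF m' 2).val = true) (p : Pt) :
    ¬ (inP (fun c => bp (allF m c)) p ∧ inP (fun c => bp (allF m' c)) p) := by
  rintro ⟨⟨h1, h2, h3⟩, ⟨h1', h2', h3'⟩⟩
  unfold b7_cFF at hc
  obtain ⟨a, b, hc⟩ := b7_any_spec hc
  rw [Bool.and_eq_true] at hc
  have k1 := b7_face_pos h hc.1 h1 h2 h3
  have k2 := b7_face_np h hc.2 h1' h2' h3'
  linarith

theorem b7 (bp : Fin 7 → Pt) (h : OK7 bp) : BG hB bp where
  inj := by
    intro i j hij
    by_contra hne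
    have hc := b7_ckInj i j hne
    unfold b7_cI at hc
    obtain ⟨p, q, hc⟩ := b7_any_spec hc
    rw [Bool.and_eq_true] at hc
    have k1 := b7_pos h hc.1
    have k2 := b7_np h hc.2
    rw [hij] at k1
    linarith
  ee := by
    intro i j k l hij hkl h1 h2 h3 h4
    have hc := b7_ckE i j hij k l ⟨hkl, h1, h2, h3, h4⟩
    rw [Bool.or_eq_true] at hc
    rcases hc with hc | hc
    · exact b7_disj h hc
    · exact (b7_disj h hc).symm
  ve := by
    intro i j k hij h1 h2 hk
    have hc := b7_ckV i j hij k h1 h2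
    rw [Bool.or_eq_true] at hc
    rcases hc with hc | hc
    · unfold b7_cV at hc
      obtain ⟨p, q, hc⟩ := b7_any_spec hc
      rw [Bool.and_eq_true, Bool.and_eq_true] at hc
      have k1 := b7_pos h hc.1
      have k2 := base_frg_seg_np hk (b7_np h hc.2.1) (b7_np h hc.2.2)
      linarith
    · unfold b7_cW at hc
      obtain ⟨p, q, hc⟩ := b7_any_spec hc
      rw [Bool.and_eq_true, Bool.and_eq_true] at hc
      have k1 := base_frg_seg_pos hk (b7_pos h hc.1) (b7_pos h hc.2.1)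
      have k2 := b7_np h hc.2.2
      linarith
  fe := b7_fe h
  ff := by
    intro m m' hmm p
    have hc := b7_ckFF m m' hmm
    rw [Bool.or_eq_true] at hc
    rcases hc with hc | hc
    · exact b7_ff h m m' hc p
    · exact fun hp => b7_ff h m' m hc p ⟨hp.2, hp.1⟩
  inn := by
    intro k
    have hc := b7_ckInn k
    rw [Bool.and_eq_true, Bool.and_eq_true] at hc
    exact ⟨b7_pos h (p := (0 : Fin 7)) (q := (1 : Fin 7)) hc.1,
      b7_pos h (p := (1 : Fin 7)) (q := (2 : Fin 7)) hc.2.1,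
      b7_pos h (p := (2 : Fin 7)) (q := (0 : Fin 7)) hc.2.2⟩
  fin := by
    rintro m p ⟨h1, h2, h3⟩
    have hc := b7_ckFin m
    rw [Bool.and_eq_true, Bool.and_eq_true] at hc
    exact ⟨b7_face_pos h (p := (0 : Fin 7)) (q := (1 : Fin 7)) hc.1 h1 h2 h3,
      b7_face_pos h (p := (1 : Fin 7)) (q := (2 : Fin 7)) hc.2.1 h1 h2 h3,
      b7_face_pos h (p := (2 : Fin 7)) (q := (0 : Fin 7)) hc.2.2 h1 h2 h3⟩
  vf := by
    intro m i
    obtain ⟨j, hj⟩ := b7_ckVf i
    exact b7_fe h m i j hj (bp i) (left_mem_segment ℝ (bp i) (bp j))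

def pX : Fin 7 → ℤ := ![0, 24, 0, 11, 8, 13, 5]
def pY : Fin 7 → ℤ := ![0, 0, 24, 2, 9, 6, 6]
def poz (i j k : Fin 7) : ℤ := (pX j - pX i) * (pY k - pY i) - (pY j - pY i) * (pX k - pX i)

theorem poz_tab : ∀ i j k : Fin 7, b7_P i.val j.val k.val = true → 0 < poz i j k := by
  decide +kernel

theorem poz_face : ∀ m : Fin 9, 0 < poz (allF m 0) (allF m 1) (allF m 2) := by
  decide +kernel

noncomputable def pbp (T : Fin 3 → Pt) (i : Fin 7) : Pt :=
  ((T 0).1 + ((pX i : ℝ) / 24) * ((T 1).1 - (T 0).1) + ((pY i : ℝ) / 24) * ((T 2).1 - (T 0).1),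
   (T 0).2 + ((pX i : ℝ) / 24) * ((T 1).2 - (T 0).2) + ((pY i : ℝ) / 24) * ((T 2).2 - (T 0).2))

theorem pbp_ori (T : Fin 3 → Pt) (i j k : Fin 7) :
    ori (pbp T i) (pbp T j) (pbp T k) = (poz i j k : ℝ) / 576 * ori (T 0) (T 1) (T 2) := by
  unfold ori pbp poz
  push_cast
  ring

theorem pbp_pos (T : Fin 3 → Pt) (hT : 0 < ori (T 0) (T 1) (T 2)) (i j k : Fin 7)
    (h : 0 < poz i j k) : 0 < ori (pbp T i) (pbp T j) (pbp T k) := by
  rw [pbp_ori]
  have : (0 : ℝ) < poz i j k := by exact_mod_cast h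
  positivity

theorem pbp_corner (T : Fin 3 → Pt) : pbp T 0 = T 0 ∧ pbp T 1 = T 1 ∧ pbp T 2 = T 2 := by
  have x0 : pX 0 = 0 := rfl
  have x1 : pX 1 = 24 := rfl
  have x2 : pX 2 = 0 := rfl
  have y0 : pY 0 = 0 := rfl
  have y1 : pY 1 = 0 := rfl
  have y2 : pY 2 = 24 := rfl
  refine ⟨?_, ?_, ?_⟩
  · apply Prod.ext
    · simp only [pbp, x0, y0]; push_cast; ring
    · simp only [pbp, x0, y0]; push_cast; ring
  · apply Prod.ext
    · simp only [pbp, x1, y1]; push_cast; ring
    · simp only [pbp, x1, y1]; push_cast; ring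
  · apply Prod.ext
    · simp only [pbp, x2, y2]; push_cast; ring
    · simp only [pbp, x2, y2]; push_cast; ring

theorem place_h (T : Fin 3 → Pt) (hT : 0 < ori (T 0) (T 1) (T 2)) :
    ∃ bp : Fin 7 → Pt, (∀ c, bp (Fin.castAdd 4 c) = T c) ∧ BG hB bp ∧
      ∀ m : Fin 9, 0 < ori (bp (allF m 0)) (bp (allF m 1)) (bp (allF m 2)) := by
  refine ⟨pbp T, ?_, b7 _ ?_, ?_⟩
  · intro c
    obtain ⟨h0, h1, h2⟩ := pbp_corner T
    fin_cases c
    · exact h0
    · exact h1
    · exact h2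
  · intro i j k hijk
    exact pbp_pos T hT i j k (poz_tab i j k hijk)
  · intro m
    exact pbp_pos T hT _ _ _ (poz_face m)

end Pool.Agent.K1H8.FT
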