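import Pool.Agent.H477R3.FD.Plan2
import Pool.Agent.K1H8.FT.Place
import Pool.Agent.K1H8.FT.Conn

/-!
# The gadgets are planar
-/

set_option autoImplicit false

namespace Pool.Agent.K1H8.FT

open Pool.Agent.Helper745.FSub Pool.Agent.Helper745.FX
open Pool.Agent.H477R3.FD (BT combT inF inF_pos bt_of_bg rf rf_rf ori_rf drw_rf inF_rf)

theorem place (c : Cd) (T : Fin 3 → Pt) (hT : 0 < ori (T 0) (T 1) (T 2)) :
    ∃ bp : Fin (3 + (bs c).I) → Pt, (∀ i, bp (Fin.castAdd (bs c).I i) = T i) ∧ BT (bs c) bp ∧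
      ∀ m, ori (bp ((bs c).face m 0)) (bp ((bs c).face m 1)) (bp ((bs c).face m 2)) ≠ 0 := by
  cases c
  · obtain ⟨bp, h1, h2, h3⟩ := place_stk T hT
    refine ⟨bp, h1, bt_of_bg 1 3 1 0 0 (fun i j => decide (i ≠ j)) stkB.face (bs Cd.nst).face
      stkB.ra stkB.rc _ _ bp h2 h3 ?_ (![2] : Fin 1 → Fin 3) (by decide) (by decide +kernel)⟩
    have e0 := h1 0
    have e1 := h1 1
    have e2 := h1 2
    rw [← e0, ← e1, ← e2] at hT
    exact hT
  · obtain ⟨bp, h1, h2, h3⟩ := place_stk T hT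
    refine ⟨bp, h1, bt_of_bg 1 3 3 0 0 (fun i j => decide (i ≠ j)) stkB.face (bs Cd.stf).face
      stkB.ra stkB.rc _ _ bp h2 h3 ?_ (![0, 2, 1] : Fin 3 → Fin 3) (by decide) (by decide +kernel)⟩
    have e0 := h1 0
    have e1 := h1 1
    have e2 := h1 2
    rw [← e0, ← e1, ← e2] at hT
    exact hT
  · obtain ⟨bp, h1, h2, h3⟩ := place_h T hT
    refine ⟨bp, h1, bt_of_bg 4 9 8 0 0 (fun i j => Nat.testBit (hmask i) j.val) allF
      (bs Cd.hgd).face _ _ _ _ bp h2 h3 ?_ (![5, 1, 6, 2, 7, 3, 8, 4] : Fin 8 → Fin 9)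
      (by decide) (by decide +kernel)⟩
    have e0 := h1 0
    have e1 := h1 1
    have e2 := h1 2
    rw [← e0, ← e1, ← e2] at hT
    exact hT

/-- every gadget can be drawn inside every triangle, of any orientation -/
theorem plan' (g : List Cd) : ∀ T : Fin 3 → Pt, ori (T 0) (T 1) (T 2) ≠ 0 →
    ∃ pos : WG g → Pt, (∀ i, pos (Sum.inl i) = T i) ∧
      Drw (AG g) pos ∧ ∀ v, inF T (pos (Sum.inr v)) := by
  have hrefl : ∀ g : List Cd, (∀ T : Fin 3 → Pt, 0 < ori (T 0) (T 1) (T 2) →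
      ∃ pos : WG g → Pt, (∀ i, pos (Sum.inl i) = T i) ∧
      Drw (AG g) pos ∧ ∀ v, inF T (pos (Sum.inr v))) →
      ∀ T : Fin 3 → Pt, ori (T 0) (T 1) (T 2) ≠ 0 →
      ∃ pos : WG g → Pt, (∀ i, pos (Sum.inl i) = T i) ∧
      Drw (AG g) pos ∧ ∀ v, inF T (pos (Sum.inr v)) := by
    intro g hpos T hT
    rcases lt_or_gt_of_ne hT with h | h
    · obtain ⟨pos, h1, h2, h3⟩ := hpos (fun i => rf (T i)) (by
        show 0 < ori (rf (T 0)) (rf (T 1)) (rf (T 2))
        rw [ori_rf]; linarith)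
      refine ⟨fun w => rf (pos w), ?_, drw_rf h2, ?_⟩
      · intro i
        show rf (pos (Sum.inl i)) = T i
        rw [h1 i, rf_rf]
      · intro v
        exact inF_rf (h3 v)
    · exact hpos T h
  induction g with
  | nil =>
    apply hrefl
    intro T hT
    obtain ⟨pos, h1, h2, h3⟩ := hubleaf 0 T hT
    exact ⟨pos, h1, h2, fun v => (inF_pos hT _).2 (h3 v)⟩
  | cons c g ih =>
    apply hrefl
    intro T hT
    obtain ⟨bp, h1, h2, h3⟩ := place c T hT
    have key := fun m : Fin (bs c).M => ih (fun i => bp ((bs c).face m i)) (h3 m)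
    choose posc hcor hdrw hins using key
    have hfT : (fun i => bp (Fin.castAdd (bs c).I i)) = T := funext h1
    refine ⟨combine_pos (bs c) (g.map bs) 0 bp posc, fun i => h1 i,
      combT (bs c) (g.map bs) 0 bp h2 (face_adj c) (AG_irr g) posc hdrw hcor hins, ?_⟩
    rintro (k | ⟨m, v⟩)
    · have := h2.inn k
      rw [hfT] at this
      exact this
    · have := h2.fin m _ (hins m v)
      rw [hfT] at this
      exact this

/-- the graph of a gadget -/
def GR (g : List Cd) : SimpleGraph (WG g) where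
  Adj := AG g
  symm := ⟨AG_symm g⟩
  loopless := ⟨AG_irr g⟩

theorem GR_drw (g : List Cd) : ∃ f, Drw (GR g).Adj f := by
  obtain ⟨pos, -, hD, -⟩ := plan' g ![(0, 0), (1, 0), (0, 1)] (by
    show ((1 : ℝ) - 0) * ((1 : ℝ) - 0) - ((0 : ℝ) - 0) * ((0 : ℝ) - 0) ≠ 0
    norm_num)
  exact ⟨pos, hD⟩

end Pool.Agent.K1H8.FT
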