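import Pool.Agent.K1H8.FT.Conn

/-!
# The gadgets have treewidth at most four
-/

set_option autoImplicit false

namespace Pool.Agent.K1H8.FT

open Pool.Agent.Helper745.FSub

/-- a rooted tree decomposition of width at most four whose root bag contains the corners `K` -/
structure TDc {W : Type} (A : W → W → Prop) (K : Fin 3 → W) {I : Type} (root : I) (par : I → I)
    (rk : I → ℕ) (bag : I → Finset W) : Prop where
  lt : ∀ j, j ≠ root → rk (par j) < rk j
  card : ∀ j, (bag j).card ≤ 5
  cor : ∀ i, K i ∈ bag root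
  top : ∀ v, ∃ t, v ∈ bag t ∧ ∀ j, v ∈ bag j → j ≠ t → j ≠ root ∧ v ∈ bag (par j)
  edge : ∀ u v, A u v → ∃ j, u ∈ bag j ∧ v ∈ bag j

/-- the corners have the root as top node -/
theorem TDc.root_top {W : Type} {A : W → W → Prop} {K : Fin 3 → W} {I : Type} {root : I}
    {par : I → I} {rk : I → ℕ} {bag : I → Finset W} (h : TDc A K root par rk bag) (i : Fin 3)
    (j : I) (hj : K i ∈ bag j) (hne : j ≠ root) : K i ∈ bag (par j) := by
  obtain ⟨t, ht, htop⟩ := h.top (K i)
  have : root = t := by
    by_contra hcon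
    exact (htop root (h.cor i) hcon).1 rfl
  subst this
  exact (htop j hj hne).2

/-- number of nodes of the decomposition of a base graph -/
@[reducible] def nb : Cd → ℕ
  | Cd.nst => 1
  | Cd.stf => 1
  | Cd.hgd => 3

/-- bags of the base graphs -/
@[reducible] def bb : (c : Cd) → Fin (nb c) → Finset (Fin (3 + (bs c).I))
  | Cd.nst => fun _ => (Finset.univ : Finset (Fin 4))
  | Cd.stf => fun _ => (Finset.univ : Finset (Fin 4))
  | Cd.hgd => (![{0, 1, 2, 3, 5}, {0, 2, 3, 4, 5}, {0, 2, 3, 4, 6}] : Fin 3 → Finset (Fin 7))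

/-- parents -/
@[reducible] def bpar : (c : Cd) → Fin (nb c) → Fin (nb c)
  | Cd.nst => fun _ => (0 : Fin 1)
  | Cd.stf => fun _ => (0 : Fin 1)
  | Cd.hgd => (![0, 0, 1] : Fin 3 → Fin 3)

/-- roots -/
@[reducible] def broot : (c : Cd) → Fin (nb c)
  | Cd.nst => (0 : Fin 1)
  | Cd.stf => (0 : Fin 1)
  | Cd.hgd => (0 : Fin 3)

/-- nodes of the marked faces -/
@[reducible] def bat : (c : Cd) → Fin (bs c).M → Fin (nb c)
  | Cd.nst => fun _ => (0 : Fin 1)
  | Cd.stf => fun _ => (0 : Fin 1)
  | Cd.hgd => (![0, 0, 1, 1, 2, 2, 2, 2] : Fin 8 → Fin 3)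

theorem b_lt (c : Cd) : ∀ j, j ≠ broot c → (bpar c j).val < j.val := by
  cases c <;> decide +kernel

theorem b_card (c : Cd) : ∀ j, (bb c j).card ≤ 5 := by
  cases c <;> decide +kernel

theorem b_cor (c : Cd) : ∀ i : Fin 3, Fin.castAdd (bs c).I i ∈ bb c (broot c) := by
  cases c <;> decide +kernel

theorem b_top (c : Cd) : ∀ v, ∃ t, v ∈ bb c t ∧ ∀ j, v ∈ bb c j → j ≠ t →
    j ≠ broot c ∧ v ∈ bb c (bpar c j) := by
  cases c <;> decide +kernel

theorem b_edge (c : Cd) : ∀ u v, (bs c).adj u v = true → ∃ j, u ∈ bb c j ∧ v ∈ bb c j := by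
  cases c <;> decide +kernel

theorem b_at (c : Cd) : ∀ m i, (bs c).face m i ∈ bb c (bat c m) := by
  cases c <;> decide +kernel

/-- gluing -/
theorem td_cons (c : Cd) (g : List Cd) {I : Type} [DecidableEq I] {root : I} {par : I → I}
    {rk : I → ℕ} {bag : I → Finset (WG g)} (h : TDc (AG g) (fun i => Sum.inl i) root par rk bag) :
    TDc (AG (c :: g)) (fun i => Sum.inl i) (I := Fin (nb c) ⊕ (Fin (bs c).M × I))
      (Sum.inl (broot c))
      (Sum.elim (fun j => Sum.inl (bpar c j))
        (fun x => if x.2 = root then Sum.inl (bat c x.1) else Sum.inr (x.1, par x.2)))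
      (Sum.elim (fun j => j.val) (fun x => nb c + rk x.2))
      (Sum.elim (fun j => (bb c j).map ⟨bvg c g, bvg_inj c g⟩)
        (fun x => (bag x.2).map ⟨cvg c g x.1, cvg_inj c g x.1⟩)) := by
  have mb : ∀ (i : Fin (3 + (bs c).I)) (j : Fin (nb c)),
      bvg c g i ∈ (bb c j).map ⟨bvg c g, bvg_inj c g⟩ ↔ i ∈ bb c j := by
    intro i j
    exact Finset.mem_map' ⟨bvg c g, bvg_inj c g⟩
  have mc : ∀ (m : Fin (bs c).M) (w : WG g) (j : I),
      cvg c g m w ∈ (bag j).map ⟨cvg c g m, cvg_inj c g m⟩ ↔ w ∈ bag j := by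
    intro m w j
    exact Finset.mem_map' ⟨cvg c g m, cvg_inj c g m⟩
  refine ⟨?_, ?_, ?_, ?_, ?_⟩
  · rintro (j | ⟨m, j⟩) hj
    · exact b_lt c j (fun hh => hj (by rw [hh]))
    · simp only [Sum.elim_inr]
      by_cases h0 : j = root
      · rw [if_pos h0]
        simp only [Sum.elim_inl]
        have := (bat c m).isLt
        omega
      · rw [if_neg h0]
        simp only [Sum.elim_inr]
        have := h.lt j h0
        omega
  · rintro (j | ⟨m, j⟩)
    · simp only [Sum.elim_inl, Finset.card_map]
      exact b_card c j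
    · simp only [Sum.elim_inr, Finset.card_map]
      exact h.card j
  · intro i
    simp only [Sum.elim_inl]
    rw [← bvg_cast c g i, mb]
    exact b_cor c i
  · intro v
    rcases combine_vert _ (bs c) (g.map bs) v with ⟨i, rfl⟩ | ⟨m, w, rfl⟩
    · obtain ⟨t, ht, htop⟩ := b_top c i
      refine ⟨Sum.inl t, (mb i t).2 ht, ?_⟩
      rintro (j | ⟨m, j⟩) hj hne
      · have hj' := (mb i j).1 hj
        obtain ⟨h1, h2⟩ := htop j hj' (fun hh => hne (by rw [hh]))
        exact ⟨fun hh => h1 (Sum.inl.inj hh), (mb i _).2 h2⟩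
      · refine ⟨fun hh => (Sum.inl_ne_inr hh.symm).elim, ?_⟩
        simp only [Sum.elim_inr] at hj ⊢
        obtain ⟨w, hw, hwe⟩ := Finset.mem_map.1 hj
        have hwe' : cvg c g m w = bvg c g i := hwe
        rcases w with a | x
        · rw [cvg_inl] at hwe'
          have hai := bvg_inj c g hwe'
          subst hai
          by_cases h0 : j = root
          · rw [if_pos h0]
            simp only [Sum.elim_inl]
            exact (mb _ _).2 (b_at c m a)
          · rw [if_neg h0]
            simp only [Sum.elim_inr]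
            exact (mc m (Sum.inl a) (par j)).2 (h.root_top a j hw h0)
        · exact absurd hwe'.symm (bvg_ne _ _ _ _ _)
    · obtain ⟨t, ht, htop⟩ := h.top (Sum.inr w)
      refine ⟨Sum.inr (m, t), (mc m (Sum.inr w) t).2 ht, ?_⟩
      rintro (j | ⟨m', j⟩) hj hne
      · exfalso
        obtain ⟨i, -, hi⟩ := Finset.mem_map.1 hj
        exact bvg_ne c g i m w hi
      · simp only [Sum.elim_inr] at hj ⊢
        obtain ⟨x, hx, hxe⟩ := Finset.mem_map.1 hj
        have hxe' : cvg c g m' x = Sum.inr (Sum.inr (m, w)) := hxe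
        rcases x with a | x
        · exact absurd hxe' (bvg_ne _ _ _ _ _)
        · obtain ⟨rfl, rfl⟩ := Prod.mk.inj (Sum.inr.inj (Sum.inr.inj hxe'))
          obtain ⟨h1, h2⟩ := htop j hx (fun hh => hne (by rw [hh]))
          refine ⟨fun hh => (Sum.inl_ne_inr hh.symm).elim, ?_⟩
          rw [if_neg h1]
          simp only [Sum.elim_inr]
          exact (mc m' (Sum.inr x) (par j)).2 h2
  · rintro u v (⟨i, j, hij, rfl, rfl⟩ | ⟨m, a, b, hab, rfl, rfl⟩)
    · obtain ⟨t, h1, h2⟩ := b_edge c i j hij
      exact ⟨Sum.inl t, (mb i t).2 h1, (mb j t).2 h2⟩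
    · obtain ⟨t, h1, h2⟩ := h.edge a b hab
      exact ⟨Sum.inr (m, t), (mc m a t).2 h1, (mc m b t).2 h2⟩

theorem td_nil : TDc (AG []) (fun i => Sum.inl i) (I := Unit) () (fun _ => ()) (fun _ => 0)
    (fun _ => (Finset.univ : Finset (Fin 3 ⊕ Option (Fin 0)))) where
  lt := fun j hj => absurd rfl hj
  card := by
    intro _
    rw [Finset.card_univ]
    decide
  cor := fun i => Finset.mem_univ _
  top := fun v => ⟨(), Finset.mem_univ _, fun j _ hj => absurd rfl hj⟩
  edge := fun u v _ => ⟨(), Finset.mem_univ _, Finset.mem_univ _⟩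

theorem td_all (g : List Cd) : ∃ (I : Type) (_ : Fintype I) (_ : DecidableEq I) (root : I)
    (par : I → I) (rk : I → ℕ) (bag : I → Finset (WG g)),
      TDc (AG g) (fun i => Sum.inl i) root par rk bag := by
  induction g with
  | nil => exact ⟨Unit, inferInstance, inferInstance, _, _, _, _, td_nil⟩
  | cons c g ih =>
    obtain ⟨I, hI, hI', root, par, rk, bag, h⟩ := ih
    exact ⟨Fin (nb c) ⊕ (Fin (bs c).M × I), inferInstance, inferInstance, _, _, _, _, td_cons c g h⟩

/-- the tree of a parent function -/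
def parT {I : Type} (root : I) (par : I → I) : SimpleGraph I where
  Adj i j := i ≠ j ∧ ((i ≠ root ∧ par i = j) ∨ (j ≠ root ∧ par j = i))
  symm := ⟨by rintro i j ⟨h1, h2 | h2⟩; exacts [⟨h1.symm, Or.inr h2⟩, ⟨h1.symm, Or.inl h2⟩]⟩
  loopless := ⟨by rintro i ⟨h1, -⟩; exact h1 rfl⟩

theorem parT_adj {I : Type} {root : I} {par : I → I} {rk : I → ℕ}
    (h : ∀ j, j ≠ root → rk (par j) < rk j) {j : I} (hj : j ≠ root) :
    (parT root par).Adj j (par j) := by
  refine ⟨?_, Or.inl ⟨hj, rfl⟩⟩
  intro hh
  have := h j hj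
  rw [← hh] at this
  exact lt_irrefl _ this

theorem parT_tree {I : Type} [Fintype I] {root : I} {par : I → I} {rk : I → ℕ}
    (h : ∀ j, j ≠ root → rk (par j) < rk j) : (parT root par).IsTree := by
  classical
  have hreach : ∀ n : ℕ, ∀ j, rk j ≤ n → (parT root par).Reachable j root := by
    intro n
    induction n with
    | zero =>
      intro j hj
      by_cases hr : j = root
      · rw [hr]
      · have := h j hr; omega
    | succ n ih =>
      intro j hj
      by_cases hr : j = root
      · rw [hr]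
      · have := h j hr
        exact (parT_adj h hr).reachable.trans (ih _ (by omega))
  have hconn : (parT root par).Connected := by
    have : Nonempty I := ⟨root⟩
    refine SimpleGraph.Connected.mk ?_
    intro x y
    exact (hreach _ x le_rfl).trans (hreach _ y le_rfl).symm
  rw [SimpleGraph.isTree_iff_connected_and_card]
  refine ⟨hconn, ?_⟩
  have h1 := hconn.card_vert_le_card_edgeSet_add_one
  have h2 : Nat.card (parT root par).edgeSet ≤ (Finset.univ.erase root).card := by
    rw [Nat.card_coe_set_eq]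
    have : (parT root par).edgeSet ⊆ ↑((Finset.univ.erase root).image fun x => s(x, par x)) := by
      intro e he
      induction e with
      | _ a b =>
        rw [SimpleGraph.mem_edgeSet] at he
        rw [Finset.mem_coe, Finset.mem_image]
        rcases he.2 with ⟨h3, h4⟩ | ⟨h3, h4⟩
        · exact ⟨a, Finset.mem_erase.2 ⟨h3, Finset.mem_univ _⟩, by rw [h4]⟩
        · exact ⟨b, Finset.mem_erase.2 ⟨h3, Finset.mem_univ _⟩, by rw [h4, Sym2.eq_swap]⟩
    refine (Set.ncard_le_ncard this (Finset.finite_toSet _)).trans ?_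
    rw [Set.ncard_coe_finset]
    exact Finset.card_image_le
  have h3 : (Finset.univ.erase root).card = Fintype.card I - 1 := by
    rw [Finset.card_erase_of_mem (Finset.mem_univ _), Finset.card_univ]
  have h4 : 0 < Fintype.card I := Fintype.card_pos_iff.2 ⟨root⟩
  have h5 : Nat.card I = Fintype.card I := Nat.card_eq_fintype_card
  omega

/-- tree decomposition in the form of the frozen statement -/
theorem td_final {W : Type} {A : W → W → Prop} {K : Fin 3 → W} {I : Type} [Fintype I]
    {root : I} {par : I → I} {rk : I → ℕ} {bag : I → Finset W} (h : TDc A K root par rk bag) :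
    ∃ (m : ℕ) (T : SimpleGraph (Fin m)) (bag : Fin m → Finset W),
      T.IsTree ∧ (∀ i, (bag i).card ≤ 5) ∧ (∀ v, ∃ i, v ∈ bag i) ∧
      (∀ u v, A u v → ∃ i, u ∈ bag i ∧ v ∈ bag i) ∧
      (∀ v, (T.induce {i | v ∈ bag i}).Connected) := by
  classical
  let e := Fintype.equivFin I
  have hlt : ∀ j, j ≠ e root → rk (e.symm (e (par (e.symm j)))) < rk (e.symm j) := by
    intro j hj
    rw [Equiv.symm_apply_apply]
    apply h.lt
    intro hh
    apply hj
    rw [← hh, Equiv.apply_symm_apply]
  refine ⟨Fintype.card I, parT (e root) (fun j => e (par (e.symm j))), fun j => bag (e.symm j),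
    parT_tree (rk := fun j => rk (e.symm j)) hlt, fun i => h.card _, ?_, ?_, ?_⟩
  · intro v
    obtain ⟨t, ht, -⟩ := h.top v
    refine ⟨e t, ?_⟩
    show v ∈ bag (e.symm (e t))
    rw [Equiv.symm_apply_apply]
    exact ht
  · intro u v huv
    obtain ⟨t, h1, h2⟩ := h.edge u v huv
    refine ⟨e t, ?_, ?_⟩
    · show u ∈ bag (e.symm (e t))
      rw [Equiv.symm_apply_apply]; exact h1
    · show v ∈ bag (e.symm (e t))
      rw [Equiv.symm_apply_apply]; exact h2
  · intro v
    obtain ⟨t, ht, htop⟩ := h.top v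
    set T := parT (e root) (fun j => e (par (e.symm j))) with hT
    have ht' : e t ∈ {i | v ∈ bag (e.symm i)} := by
      show v ∈ bag (e.symm (e t))
      rw [Equiv.symm_apply_apply]; exact ht
    have hreach : ∀ n : ℕ, ∀ j (hj : j ∈ {i | v ∈ bag (e.symm i)}), rk (e.symm j) ≤ n →
        (T.induce {i | v ∈ bag (e.symm i)}).Reachable ⟨j, hj⟩ ⟨e t, ht'⟩ := by
      intro n
      induction n with
      | zero =>
        intro j hj hn
        by_cases hr : e.symm j = t
        · have : j = e t := by rw [← hr, Equiv.apply_symm_apply]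
          subst this
          exact SimpleGraph.Reachable.refl _
        · obtain ⟨h1, h2⟩ := htop _ hj hr
          have := h.lt _ h1
          omega
      | succ n ih =>
        intro j hj hn
        by_cases hr : e.symm j = t
        · have : j = e t := by rw [← hr, Equiv.apply_symm_apply]
          subst this
          exact SimpleGraph.Reachable.refl _
        · obtain ⟨h1, h2⟩ := htop _ hj hr
          have h3 := h.lt _ h1
          have hj1 : j ≠ e root := by
            intro hh
            apply h1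
            rw [hh, Equiv.symm_apply_apply]
          have hadj : T.Adj j (e (par (e.symm j))) :=
            parT_adj (rk := fun j => rk (e.symm j)) hlt hj1
          have hmem : e (par (e.symm j)) ∈ {i | v ∈ bag (e.symm i)} := by
            show v ∈ bag (e.symm (e (par (e.symm j))))
            rw [Equiv.symm_apply_apply]
            exact h2
          have h4 := ih (e (par (e.symm j))) hmem (by rw [Equiv.symm_apply_apply]; omega)
          refine SimpleGraph.Reachable.trans ?_ h4
          exact SimpleGraph.Adj.reachable (show (T.induce _).Adj ⟨j, hj⟩ ⟨_, hmem⟩ from hadj)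
    have : Nonempty {i | v ∈ bag (e.symm i)} := ⟨⟨e t, ht'⟩⟩
    refine SimpleGraph.Connected.mk ?_
    rintro ⟨x, hx⟩ ⟨y, hy⟩
    exact (hreach _ x hx le_rfl).trans (hreach _ y hy le_rfl).symm

end Pool.Agent.K1H8.FT
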