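import Pool.Agent.K1H8.FT.Upper2

set_option autoImplicit false

namespace Pool.Agent.K1H8.FT

open Pool.Agent.Helper745.FSub Relation

set_option maxRecDepth 100000 in
theorem hgd_perm : ∀ m : Fin 8, ∃ m' : Fin 9, ∃ i j k : Fin 3, i ≠ j ∧ i ≠ k ∧ j ≠ k ∧
    mF m 0 = allF m' i ∧ mF m 1 = allF m' j ∧ mF m 2 = allF m' k := by
  decide +kernel

theorem fin3_ex : ∀ i j k : Fin 3, i ≠ j → i ≠ k → j ≠ k → ∀ l : Fin 3, l = i ∨ l = j ∨ l = k := by
  decide

theorem sum8_le (t : Fin 8 → ℕ) (a b : ℕ) (h : ∀ m, t m ≤ a) :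
    ((∃ m, t m ≤ b) → ∑ m, t m ≤ 7 * a + b) ∧ ((∀ m, t m ≤ b) → ∑ m, t m ≤ 8 * b) := by
  constructor
  · rintro ⟨m, hm⟩
    have h1 := Finset.add_sum_erase Finset.univ t (Finset.mem_univ m)
    have h2 : ∑ x ∈ Finset.univ.erase m, t x ≤ (Finset.univ.erase m).card • a :=
      Finset.sum_le_card_nsmul _ _ _ fun x _ => h x
    have h3 : (Finset.univ.erase m : Finset (Fin 8)).card = 7 := by
      rw [Finset.card_erase_of_mem (Finset.mem_univ _)]
      simp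
    rw [h3, smul_eq_mul] at h2
    omega
  · intro hb
    calc ∑ m, t m ≤ ∑ _m : Fin 8, b := Finset.sum_le_sum fun m _ => hb m
      _ = 8 * b := by simp

section
variable {V : Type} {A : V → V → Prop} {f : V → Pt}

theorem hgd_FC (hD : Drw A f) (hs : Sy A) {g : List Cd} {e : WG (Cd.hgd :: g) → V}
    (h : Emb 0 ((Cd.hgd :: g).map bs) A e) (hin : Ins f e) :
    FC A f (fun i : Fin 7 => e (bvg Cd.hgd g i)) where
  drw := hD
  sym := hs
  inj := fun i j hij => bvg_inj Cd.hgd g (h.inj hij)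
  adj := fun i j hij => h.adj _ _ (AG_base Cd.hgd g i j hij)
  ins := by
    intro i hi
    have h0 : bvg Cd.hgd g (0 : Fin 7) = Sum.inl 0 := bvg_cast Cd.hgd g 0
    have h1 : bvg Cd.hgd g (1 : Fin 7) = Sum.inl 1 := bvg_cast Cd.hgd g 1
    have h2 : bvg Cd.hgd g (2 : Fin 7) = Sum.inl 2 := bvg_cast Cd.hgd g 2
    obtain ⟨k, hk⟩ : ∃ k : Fin 4, i = Fin.natAdd 3 k := by
      refine ⟨⟨i.val - 3, by omega⟩, ?_⟩
      ext
      simp only [Fin.val_natAdd]
      omega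
    show inT (f (e (bvg Cd.hgd g (0 : Fin 7)))) (f (e (bvg Cd.hgd g (1 : Fin 7))))
        (f (e (bvg Cd.hgd g (2 : Fin 7)))) (f (e (bvg Cd.hgd g i)))
    rw [h0, h1, h2, hk]
    have := bvg_nat Cd.hgd g k
    rw [this]
    exact hin _

theorem hgd_facts (hD : Drw A f) (hs : Sy A) {g : List Cd} (hc : Ctr g)
    {e : WG (Cd.hgd :: g) → V} (h : Emb 0 ((Cd.hgd :: g).map bs) A e) (hin : Ins f e) :
    (∀ m, Ins f (fun w => e (cvg Cd.hgd g m w))) ∧
    ((∀ m : Fin 8, ∃ v : VG g, (f (e (cvg Cd.hgd g m (Sum.inr v)))).2 = 0) →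
      (∃ m : Fin 8, ¬ (f (e (cvg Cd.hgd g m (Sum.inl 1)))).2 *
        (f (e (cvg Cd.hgd g m (Sum.inl 2)))).2 < 0) ∧
      (¬ (f (e (Sum.inl 1))).2 * (f (e (Sum.inl 2))).2 < 0 →
        ∀ m : Fin 8, ¬ (f (e (cvg Cd.hgd g m (Sum.inl 1)))).2 *
        (f (e (cvg Cd.hgd g m (Sum.inl 2)))).2 < 0)) := by
  have hFC := hgd_FC hD hs h hin
  have hpart : ∀ (m : Fin 8) (v : VG g),
      inT (f (e (bvg Cd.hgd g (mF m (0 : Fin 3)))))
        (f (e (bvg Cd.hgd g (mF m (1 : Fin 3)))))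
        (f (e (bvg Cd.hgd g (mF m (2 : Fin 3)))))
        (f (e (cvg Cd.hgd g m (Sum.inr v)))) := by
    intro m v
    have hE := emb_childg h m
    have hC := (cn_at hE).1
    obtain ⟨d, hd⟩ := hc
    obtain ⟨m', i, j, k, h1, h2, h3, e0, e1, e2⟩ := hgd_perm m
    have hcc : ∃ d ∈ Set.range (fun v : VG g => e (cvg Cd.hgd g m (Sum.inr v))), ∀ l : Fin 3,
        A d (e (bvg Cd.hgd g (allF m' l))) := by
      refine ⟨_, ⟨d, rfl⟩, ?_⟩
      intro l
      rcases fin3_ex i j k h1 h2 h3 l with rfl | rfl | rfl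
      · rw [← e0]; exact hE.adj _ _ (hd 0)
      · rw [← e1]; exact hE.adj _ _ (hd 1)
      · rw [← e2]; exact hE.adj _ _ (hd 2)
    have := blob hFC m' hC (by
      rintro i ⟨w, hw⟩
      exact bvg_ne Cd.hgd g i m w (h.inj hw).symm) hcc (e (cvg Cd.hgd g m (Sum.inr v))) ⟨v, rfl⟩
    rw [e0, e1, e2]
    exact inT_perm (fun l => f (e (bvg Cd.hgd g (allF m' l)))) i j k h1 h2 h3 _ this
  refine ⟨fun m v => hpart m v, fun hz => ?_⟩
  have hres := comb7 (fun i : Fin 7 => (f (e (bvg Cd.hgd g i))).2)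
      (fun i hi => mono hFC i hi) ?_
  · exact hres
  · intro m
    obtain ⟨v, hv⟩ := hz m
    have h1 := hpart m v
    by_contra hcon
    refine line_avoid h1 ?_ hv
    rintro ⟨ha, hb⟩
    apply hcon
    constructor
    · rcases ha with ha | ha | ha
      · exact ⟨0, ha⟩
      · exact ⟨1, ha⟩
      · exact ⟨2, ha⟩
    · rcases hb with ha | ha | ha
      · exact ⟨0, ha⟩
      · exact ⟨1, ha⟩
      · exact ⟨2, ha⟩

theorem up_hgd (hD : Drw A f) (hs : Sy A) {g : List Cd} (hc : Ctr g) {a b : ℕ}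
    (hU : UB A f g a b) : UB A f (Cd.hgd :: g) (4 + 7 * a + b) (4 + max (8 * b) (7 * a)) := by
  intro e h hin
  obtain ⟨h1, h2⟩ := hgd_facts hD hs hc h hin
  have hz := Z_cons Cd.hgd g (fun v => (f (e (Sum.inr v))).2)
  have hm : ∀ m : Fin 8, Z g (fun v => (f (e (Sum.inr (Sum.inr (m, v))))).2) ≤ a :=
    fun m => (hU (fun w => e (cvg Cd.hgd g m w)) (emb_childg h m) (h1 m)).1
  have hm' : ∀ m : Fin 8, ¬ (f (e (cvg Cd.hgd g m (Sum.inl 1)))).2 *
        (f (e (cvg Cd.hgd g m (Sum.inl 2)))).2 < 0 →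
      Z g (fun v => (f (e (Sum.inr (Sum.inr (m, v))))).2) ≤ b :=
    fun m => (hU (fun w => e (cvg Cd.hgd g m w)) (emb_childg h m) (h1 m)).2
  obtain ⟨s1, s3⟩ := sum8_le (fun m : Fin 8 => Z g (fun v => (f (e (Sum.inr (Sum.inr (m, v))))).2))
    a b hm
  obtain ⟨s2, -⟩ := sum8_le (fun m : Fin 8 => Z g (fun v => (f (e (Sum.inr (Sum.inr (m, v))))).2))
    a 0 hm
  have hz' : Z (Cd.hgd :: g) (fun v => (f (e (Sum.inr v))).2) ≤
      4 + ∑ m : Fin 8, Z g (fun v => (f (e (Sum.inr (Sum.inr (m, v))))).2) := hz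
  by_cases h0 : ∃ m : Fin 8, Z g (fun v => (f (e (Sum.inr (Sum.inr (m, v))))).2) = 0
  · obtain ⟨m, hm0⟩ := h0
    have := s2 ⟨m, hm0.le⟩
    exact ⟨by omega, fun _ => by omega⟩
  · push Not at h0
    obtain ⟨h3, h4⟩ := h2 fun m => Z_pos g _ (h0 m)
    obtain ⟨m, hmn⟩ := h3
    have := s1 ⟨m, hm' m hmn⟩
    refine ⟨by omega, fun hn => ?_⟩
    have := s3 fun m => hm' m (h4 hn m)
    omega

theorem ctr_GQ (k : ℕ) : Ctr (GQ k) := by
  cases k with
  | zero => exact ⟨none, fun i => ⟨by simp, Or.inl rfl⟩⟩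
  | succ k =>
    obtain ⟨n, hn⟩ : ∃ n, 8 ^ (k + 1) = n + 1 := ⟨8 ^ (k + 1) - 1, by
      have := Nat.pow_pos (n := k + 1) (show 0 < 8 by norm_num)
      omega⟩
    have e : GQ (k + 1) = Cd.nst :: (List.replicate n Cd.nst ++ (Cd.hgd :: GQ k)) := by
      rw [GQ, hn, List.replicate_succ, List.cons_append]
    rw [e]
    refine ⟨Sum.inl (0 : Fin 1), fun i => ?_⟩
    have h := AG_base Cd.nst (List.replicate n Cd.nst ++ (Cd.hgd :: GQ k))
      (Fin.natAdd 3 (0 : Fin 1)) (Fin.castAdd 1 i) (by revert i; decide)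
    rw [bvg_cast, bvg_nat] at h
    exact h

theorem UB.mono {g : List Cd} {a b a' b' : ℕ} (h : UB A f g a b) (ha : a ≤ a') (hb : b ≤ b') :
    UB A f g a' b' := fun e he hin =>
  ⟨((h e he hin).1).trans ha, fun hn => ((h e he hin).2 hn).trans hb⟩

theorem up_GQ (hD : Drw A f) (hs : Sy A) (k : ℕ) :
    UB A f (GQ k) (64 * 8 ^ k - 1) (56 * 8 ^ k - 1) := by
  induction k with
  | zero =>
    intro e _ _
    have : Fintype.card (VG (GQ 0)) = 1 := by
      show Fintype.card (Option (Fin 0)) = 1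
      simp
    have h1 : Z (GQ 0) (fun v => (f (e (Sum.inr v))).2) ≤ 1 := by
      have := Z_le (GQ 0) (fun v => (f (e (Sum.inr v))).2)
      omega
    exact ⟨by rw [pow_zero]; omega, fun _ => by rw [pow_zero]; omega⟩
  | succ k ih =>
    have hpos : 1 ≤ 8 ^ k := Nat.one_le_pow _ _ (by norm_num)
    have h1 := up_hgd hD hs (ctr_GQ k) ih
    have h2 := up_nst hD hs (by omega) h1 (8 ^ (k + 1))
    have hp : 8 ^ (k + 1) = 8 * 8 ^ k := by rw [pow_succ]; ring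
    have h3 : UB A f (GQ (k + 1)) (8 ^ (k + 1) + (4 + 7 * (64 * 8 ^ k - 1) + (56 * 8 ^ k - 1)))
      (4 + max (8 * (56 * 8 ^ k - 1)) (7 * (64 * 8 ^ k - 1))) := h2
    refine h3.mono ?_ ?_
    · rw [hp]; omega
    · rw [hp]; omega

theorem FQ_succ (h k : ℕ) : FQ (h + 1) k = Cd.stf :: FQ h k := by
  rw [FQ, FQ, List.replicate_succ, List.cons_append]

theorem up_FQ_in (hD : Drw A f) (hs : Sy A) (h k : ℕ) (e : WG (FQ h k) → V)
    (he : Emb 0 ((FQ h k).map bs) A e) (hin : Ins f e) :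
    Z (FQ h k) (fun v => (f (e (Sum.inr v))).2) ≤ 3 ^ h * (64 * 8 ^ k) - 1 := by
  induction h with
  | zero =>
    rw [pow_zero, one_mul]
    exact (up_GQ hD hs k e he hin).1
  | succ h ih =>
    have key : ∀ e : WG (Cd.stf :: FQ h k) → V, Emb 0 ((Cd.stf :: FQ h k).map bs) A e → Ins f e →
        Z (Cd.stf :: FQ h k) (fun v => (f (e (Sum.inr v))).2) ≤
          3 ^ (h + 1) * (64 * 8 ^ k) - 1 := by
      intro e he hin
      have hi := stf_ins hD hs he hin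
      have hz := Z_cons Cd.stf (FQ h k) (fun v => (f (e (Sum.inr v))).2)
      have hz' : Z (Cd.stf :: FQ h k) (fun v => (f (e (Sum.inr v))).2) ≤
        1 + ∑ m : Fin 3, Z (FQ h k) (fun v => (f (e (Sum.inr (Sum.inr (m, v))))).2) := hz
      rw [Fin.sum_univ_three] at hz'
      have a0 : Z (FQ h k) (fun v => (f (e (Sum.inr (Sum.inr ((0 : Fin 3), v))))).2) ≤
        3 ^ h * (64 * 8 ^ k) - 1 := ih _ (emb_childg he (0 : Fin 3)) (hi 0)
      have a1 : Z (FQ h k) (fun v => (f (e (Sum.inr (Sum.inr ((1 : Fin 3), v))))).2) ≤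
        3 ^ h * (64 * 8 ^ k) - 1 := ih _ (emb_childg he (1 : Fin 3)) (hi 1)
      have a2 : Z (FQ h k) (fun v => (f (e (Sum.inr (Sum.inr ((2 : Fin 3), v))))).2) ≤
        3 ^ h * (64 * 8 ^ k) - 1 := ih _ (emb_childg he (2 : Fin 3)) (hi 2)
      have hpos : 1 ≤ 3 ^ h * (64 * 8 ^ k) := Nat.one_le_iff_ne_zero.2 (by positivity)
      have hp : 3 ^ (h + 1) * (64 * 8 ^ k) = 3 * (3 ^ h * (64 * 8 ^ k)) := by rw [pow_succ]; ring
      omega
    exact key e he hin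

theorem up_FQ_any (hD : Drw A f) (hs : Sy A) (h k : ℕ) :
    ∀ e : WG (FQ h k) → V, Emb 0 ((FQ h k).map bs) A e →
      Z (FQ h k) (fun v => (f (e (Sum.inr v))).2) ≤
        3 ^ h * (64 * 8 ^ k) + Fintype.card (VG (GQ k)) := by
  induction h with
  | zero =>
    intro e _
    refine (Z_le _ _).trans ?_
    exact Nat.le_add_left _ _
  | succ h ih =>
    rw [FQ_succ]
    intro e he
    obtain ⟨m0, hm0⟩ := stf_any hD hs he
    have hz := Z_cons Cd.stf (FQ h k) (fun v => (f (e (Sum.inr v))).2)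
    have hz' : Z (Cd.stf :: FQ h k) (fun v => (f (e (Sum.inr v))).2) ≤
      1 + ∑ m : Fin 3, Z (FQ h k) (fun v => (f (e (Sum.inr (Sum.inr (m, v))))).2) := hz
    have h0 : Z (FQ h k) (fun v => (f (e (Sum.inr (Sum.inr (m0, v))))).2) ≤
        3 ^ h * (64 * 8 ^ k) + Fintype.card (VG (GQ k)) := ih _ (emb_childg he m0)
    have hoth : ∀ m ∈ Finset.univ.erase m0,
        Z (FQ h k) (fun v => (f (e (Sum.inr (Sum.inr (m, v))))).2) ≤ 3 ^ h * (64 * 8 ^ k) - 1 := by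
      intro m hm
      exact up_FQ_in hD hs h k _ (emb_childg he m) (hm0 m (Finset.ne_of_mem_erase hm))
    have hsum := Finset.sum_le_card_nsmul _ _ _ hoth
    have hcard : (Finset.univ.erase m0).card = 2 := by
      rw [Finset.card_erase_of_mem (Finset.mem_univ _), Finset.card_univ, Fintype.card_fin]
    rw [hcard, smul_eq_mul] at hsum
    have hadd := Finset.add_sum_erase Finset.univ
      (fun m : Fin 3 => Z (FQ h k) (fun v => (f (e (Sum.inr (Sum.inr (m, v))))).2))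
      (Finset.mem_univ m0)
    have hpos : 1 ≤ 3 ^ h * (64 * 8 ^ k) := Nat.one_le_iff_ne_zero.2 (by positivity)
    have hp : 3 ^ (h + 1) * (64 * 8 ^ k) = 3 * (3 ^ h * (64 * 8 ^ k)) := by rw [pow_succ]; ring
    simp only at hadd
    omega

end

end Pool.Agent.K1H8.FT
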