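import Pool.Agent.Helper745.FX.Geo
import Pool.Agent.K1H8.FT.Upper3
import Pool.Agent.K1H8.FT.Plan
import Pool.Agent.K1H8.FT.TD

/-!
# Planar graphs of treewidth four without linear free sets
-/

set_option autoImplicit false

namespace Pool.Agent.K1H8.FT

open Pool.Agent.Helper745.FSub

theorem cardVG (c : Cd) (g : List Cd) :
    Fintype.card (VG (c :: g)) = (bs c).I + (bs c).M * Fintype.card (VG g) :=
  Pool.Agent.Helper745.FX.cardV 0 (bs c) (g.map bs)

theorem card_nst (n : ℕ) (g : List Cd) :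
    Fintype.card (VG (List.replicate n Cd.nst ++ g)) = n + Fintype.card (VG g) := by
  induction n with
  | zero => simp
  | succ n ih =>
    have h : Fintype.card (VG (Cd.nst :: (List.replicate n Cd.nst ++ g))) =
        1 + 1 * Fintype.card (VG (List.replicate n Cd.nst ++ g)) := cardVG _ _
    show Fintype.card (VG (Cd.nst :: (List.replicate n Cd.nst ++ g))) = _
    rw [h, ih]
    ring

theorem card_GQ (k : ℕ) : (k + 1) * 8 ^ k ≤ Fintype.card (VG (GQ k)) := by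
  induction k with
  | zero =>
    have : Fintype.card (VG (GQ 0)) = 1 := by
      show Fintype.card (Option (Fin 0)) = 1
      simp
    rw [this]; norm_num
  | succ k ih =>
    have h1 : Fintype.card (VG (GQ (k + 1))) =
        8 ^ (k + 1) + Fintype.card (VG (Cd.hgd :: GQ k)) := card_nst _ _
    have h2 : Fintype.card (VG (Cd.hgd :: GQ k)) = 4 + 8 * Fintype.card (VG (GQ k)) :=
      cardVG _ _
    rw [h1, h2]
    have h3 : 8 ^ (k + 1) = 8 * 8 ^ k := by rw [pow_succ]; ring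
    rw [h3]
    have h4 : (k + 1 + 1) * (8 * 8 ^ k) = 8 * 8 ^ k + 8 * ((k + 1) * 8 ^ k) := by ring
    rw [h4]
    omega

theorem card_FQ (h k : ℕ) : 3 ^ h * Fintype.card (VG (GQ k)) ≤ Fintype.card (VG (FQ h k)) := by
  induction h with
  | zero =>
    rw [pow_zero, one_mul]
    exact le_rfl
  | succ h ih =>
    rw [FQ_succ]
    have h1 : Fintype.card (VG (Cd.stf :: FQ h k)) = 1 + 3 * Fintype.card (VG (FQ h k)) :=
      cardVG _ _
    rw [h1, pow_succ]
    have h2 : 3 ^ h * 3 * Fintype.card (VG (GQ k)) = 3 * (3 ^ h * Fintype.card (VG (GQ k))) := by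
      ring
    rw [h2]
    omega

/-- a set of vertices drawn on a line is small -/
theorem GR_upper (h k : ℕ) (f : WG (FQ h k) → Pt) (hD : Drw (GR (FQ h k)).Adj f)
    (S : Finset (WG (FQ h k))) (hS : ∀ v ∈ S, (f v).2 = 0) :
    S.card ≤ 3 + (3 ^ h * (64 * 8 ^ k) + Fintype.card (VG (GQ k))) := by
  classical
  have h1 := up_FQ_any hD (AG_symm (FQ h k)) h k (fun w => w) ⟨fun _ _ h => h, fun _ _ h => h⟩
  have h2 : S.card ≤ ∑ w : WG (FQ h k), (if (f w).2 = 0 then 1 else 0) := by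
    calc S.card = ∑ w ∈ S, 1 := by simp
      _ = ∑ w ∈ S, (if (f w).2 = 0 then 1 else 0) :=
          Finset.sum_congr rfl (fun w hw => (if_pos (hS w hw)).symm)
      _ ≤ _ := Finset.sum_le_sum_of_subset (Finset.subset_univ _)
  rw [Fintype.sum_sum_type] at h2
  have h3 : ∑ i : Fin 3, (if (f (Sum.inl i)).2 = 0 then 1 else 0) ≤ 3 := by
    calc ∑ i : Fin 3, (if (f (Sum.inl i)).2 = 0 then 1 else 0) ≤ ∑ _i : Fin 3, 1 := by
          apply Finset.sum_le_sum
          intro i _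
          split_ifs <;> omega
      _ = 3 := by simp
  have h4 : ∑ v : VG (FQ h k), (if (f (Sum.inr v)).2 = 0 then 1 else 0) ≤
      3 ^ h * (64 * 8 ^ k) + Fintype.card (VG (GQ k)) := by
    unfold Z at h1
    convert h1 using 3
  exact h2.trans (Nat.add_le_add h3 h4)

/-- the drawing condition of the frozen statement -/
def Fz {V : Type} (G : SimpleGraph V) (f : V → ℝ × ℝ) : Prop :=
  Function.Injective f ∧
    (∀ u v w : V, G.Adj u v → w ≠ u → w ≠ v → f w ∉ segment ℝ (f u) (f v)) ∧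
    (∀ u v x y : V, G.Adj u v → G.Adj x y → ¬(u = x ∧ v = y) → ¬(u = y ∧ v = x) →
      ∀ p ∈ segment ℝ (f u) (f v), p ∈ segment ℝ (f x) (f y) →
        p ∈ f '' (({u, v} : Set V) ∩ {x, y}))

theorem fz_of_drw {V : Type} {G : SimpleGraph V} {f : V → ℝ × ℝ} (h : Drw G.Adj f) : Fz G f := by
  refine ⟨h.inj, h.d1, ?_⟩
  intro u v x y huv hxy h1 h2 p hp hp'
  obtain ⟨w, hw, hw', rfl⟩ := Pool.Agent.Helper745.FX.meet h huv hxy (by
    intro hh
    rcases Sym2.eq_iff.1 hh with hh | hh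
    · exact h1 hh
    · exact h2 hh) hp hp'
  exact ⟨w, ⟨hw, hw'⟩, rfl⟩

theorem drw_of_fz {V : Type} {G : SimpleGraph V} {f : V → ℝ × ℝ} (h : Fz G f) : Drw G.Adj f := by
  obtain ⟨h1, h2, h3⟩ := h
  refine ⟨h1, h2, ?_⟩
  intro u v x y huv hxy a1 a2 a3 a4
  rw [Set.disjoint_left]
  intro p hp hp'
  obtain ⟨w, ⟨hw, hw'⟩, -⟩ := h3 u v x y huv hxy (fun hh => a1 hh.1) (fun hh => a2 hh.1) p hp hp'
  rcases hw with rfl | rfl
  · rcases hw' with hh | hh
    · exact a1 hh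
    · exact a2 hh
  · rcases hw' with hh | hh
    · exact a3 hh
    · exact a4 hh

theorem not_main :
    ¬ (∃ c : ℝ, 0 < c ∧
      ∀ (V : Type) [Fintype V] [DecidableEq V] (G : SimpleGraph V),
        (∃ f : V → ℝ × ℝ, Fz G f) →
        (∃ (m : ℕ) (T : SimpleGraph (Fin m)) (bag : Fin m → Finset V),
          T.IsTree ∧ (∀ i, (bag i).card ≤ 5) ∧ (∀ v, ∃ i, v ∈ bag i) ∧
          (∀ u v, G.Adj u v → ∃ i, u ∈ bag i ∧ v ∈ bag i) ∧
          (∀ v, (T.induce {i | v ∈ bag i}).Connected)) →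
        ∃ S : Finset V, c * (Fintype.card V : ℝ) ≤ (S.card : ℝ) ∧
          ∀ P : Finset (ℝ × ℝ), P.card = S.card →
            ∃ f : V → ℝ × ℝ, Fz G f ∧ S.image f = P) := by
  classical
  rintro ⟨c, hc, hmain⟩
  -- parameters
  obtain ⟨h, hh⟩ : ∃ h : ℕ, 3 / c < (3 : ℝ) ^ h := pow_unbounded_of_one_lt _ (by norm_num)
  obtain ⟨k, hk⟩ : ∃ k : ℕ, 192 / c < (k : ℝ) := exists_nat_gt _
  have hh' : 3 < c * 3 ^ h := by
    rw [div_lt_iff₀ hc] at hh
    linarith
  have hk' : 192 < c * k := by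
    rw [div_lt_iff₀ hc] at hk
    linarith
  obtain ⟨f0, hf0⟩ := GR_drw (FQ h k)
  obtain ⟨I, hI, -, root, par, rk, bag, hTD⟩ := td_all (FQ h k)
  obtain ⟨S, hS1, hS2⟩ := hmain (WG (FQ h k)) (GR (FQ h k)) ⟨f0, fz_of_drw hf0⟩ (td_final hTD)
  -- collinear points
  let P : Finset (ℝ × ℝ) := (Finset.range S.card).image fun i : ℕ => ((i : ℝ), (0 : ℝ))
  have hP : P.card = S.card := by
    rw [Finset.card_image_of_injective, Finset.card_range]
    intro a b hab
    have := (Prod.mk.inj hab).1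
    exact_mod_cast this
  obtain ⟨f, hf, hfP⟩ := hS2 P hP
  have hline : ∀ v ∈ S, (f v).2 = 0 := by
    intro v hv
    have h1 : f v ∈ P := by
      rw [← hfP]
      exact Finset.mem_image_of_mem f hv
    obtain ⟨i, -, hi⟩ := Finset.mem_image.1 h1
    rw [← hi]
  have hup := GR_upper h k f (drw_of_fz hf) S hline
  have hN := card_GQ k
  have hM := card_FQ h k
  have hW : Fintype.card (WG (FQ h k)) = 3 + Fintype.card (VG (FQ h k)) := by
    show Fintype.card (Fin 3 ⊕ VG (FQ h k)) = _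
    rw [Fintype.card_sum, Fintype.card_fin]
  -- real arithmetic
  set N : ℕ := Fintype.card (VG (GQ k)) with hNdef
  have e1 : (S.card : ℝ) ≤ 3 + (3 ^ h * (64 * 8 ^ k) + (N : ℝ)) := by exact_mod_cast hup
  have e2 : ((k : ℝ) + 1) * 8 ^ k ≤ (N : ℝ) := by exact_mod_cast hN
  have e3 : (3 : ℝ) ^ h * (N : ℝ) ≤ (Fintype.card (WG (FQ h k)) : ℝ) := by
    rw [hW]
    have : 3 ^ h * N ≤ 3 + Fintype.card (VG (FQ h k)) := by omega
    exact_mod_cast this
  have e4 : c * ((3 : ℝ) ^ h * (N : ℝ)) ≤ 3 + (3 ^ h * (64 * 8 ^ k) + (N : ℝ)) :=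
    (mul_le_mul_of_nonneg_left e3 hc.le).trans (hS1.trans e1)
  have p8 : (1 : ℝ) ≤ 8 ^ k := one_le_pow₀ (by norm_num)
  have p3 : (0 : ℝ) < 3 ^ h := by positivity
  have k0 : (0 : ℝ) ≤ k := Nat.cast_nonneg _
  have k1 : (1 : ℝ) ≤ k := by
    have : (0 : ℝ) < k := lt_trans (by positivity) hk
    have : 0 < k := by exact_mod_cast this
    exact_mod_cast this
  have hNpos : (1 : ℝ) ≤ N := by nlinarith
  have p8' : (8 : ℝ) ≤ 8 ^ k := by
    have hk1 : k ≠ 0 := by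
      rintro rfl
      norm_num at k1
    exact le_self_pow₀ (by norm_num) hk1
  have hN3 : (3 : ℝ) ≤ N := by nlinarith
  -- split c 3^h N into three parts
  have f1 : 3 * (N : ℝ) < c * 3 ^ h * N := mul_lt_mul_of_pos_right hh' (by linarith)
  have f2 : 192 * (8 : ℝ) ^ k ≤ c * (k : ℝ) * 8 ^ k :=
    mul_le_mul_of_nonneg_right hk'.le (by positivity)
  have f3 : c * (k : ℝ) * 8 ^ k ≤ c * N := by
    have : (k : ℝ) * 8 ^ k ≤ N := by nlinarith
    calc c * (k : ℝ) * 8 ^ k = c * ((k : ℝ) * 8 ^ k) := by ring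
      _ ≤ c * N := mul_le_mul_of_nonneg_left this hc.le
  have f4 : (3 : ℝ) ^ h * (192 * 8 ^ k) ≤ 3 ^ h * (c * N) :=
    mul_le_mul_of_nonneg_left (f2.trans f3) p3.le
  have g1 : (3 : ℝ) ^ h * (192 * 8 ^ k) = 3 * (3 ^ h * (64 * 8 ^ k)) := by ring
  have g2 : (3 : ℝ) ^ h * (c * N) = c * (3 ^ h * N) := by ring
  have g3 : c * (3 : ℝ) ^ h * N = c * (3 ^ h * N) := by ring
  rw [g1, g2] at f4
  rw [g3] at f1
  linarith

end Pool.Agent.K1H8.FT
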