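import Pool.Agent.K1H8.FT.Conn

set_option autoImplicit false

namespace Pool.Agent.K1H8.FT

open Pool.Agent.Helper745.FSub Relation

theorem inT_perm (d : Fin 3 → Pt) (i j k : Fin 3) (h1 : i ≠ j) (h2 : i ≠ k) (h3 : j ≠ k) (p : Pt)
    (h : inT (d 0) (d 1) (d 2) p) : inT (d i) (d j) (d k) p := by
  have r1 := stk_any_cyc h
  have r2 := stk_any_cyc r1
  have s0 := stk_any_swap h
  have s1 := stk_any_swap r1
  have s2 := stk_any_swap r2
  fin_cases i <;> fin_cases j <;> fin_cases k <;>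
    first
      | exact absurd rfl h1
      | exact absurd rfl h2
      | exact absurd rfl h3
      | assumption

theorem inT_perm' {a b c p : Pt} (h : inT a b c p) :
    inT b c a p ∧ inT c a b p ∧ inT b a c p ∧ inT a c b p ∧ inT c b a p :=
  ⟨stk_any_cyc h, stk_any_cyc (stk_any_cyc h), stk_any_swap h,
    stk_any_swap (stk_any_cyc (stk_any_cyc h)), stk_any_swap (stk_any_cyc h)⟩

/-- number of inner vertices on the line -/
noncomputable def Z (g : List Cd) (y : VG g → ℝ) : ℕ := by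
  classical exact ∑ v : VG g, if y v = 0 then 1 else 0

theorem Z_cons (c : Cd) (g : List Cd) (y : VG (c :: g) → ℝ) :
    Z (c :: g) y ≤ (bs c).I + ∑ m : Fin (bs c).M, Z g (fun v => y (Sum.inr (m, v))) := by
  classical
  have h : Z (c :: g) y = (∑ k : Fin (bs c).I, if y (Sum.inl k) = 0 then 1 else 0) +
      ∑ m : Fin (bs c).M, Z g (fun v => y (Sum.inr (m, v))) := by
    unfold Z
    refine (Fintype.sum_sum_type (α₁ := Fin (bs c).I) (α₂ := Fin (bs c).M × VG g)
      (fun v => if y v = 0 then 1 else 0)).trans ?_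
    congr 1
    exact Fintype.sum_prod_type (fun x : Fin (bs c).M × VG g => if y (Sum.inr x) = 0 then 1 else 0)
  rw [h]
  gcongr
  calc (∑ k : Fin (bs c).I, if y (Sum.inl k) = 0 then 1 else 0) ≤ ∑ k : Fin (bs c).I, 1 := by
        apply Finset.sum_le_sum
        intro i _
        split_ifs <;> omega
    _ = (bs c).I := by simp

theorem Z_cons1 (g : List Cd) (y : VG (Cd.nst :: g) → ℝ) (h0 : y (Sum.inl (0 : Fin 1)) ≠ 0) :
    Z (Cd.nst :: g) y ≤ Z g (fun v => y (Sum.inr ((0 : Fin 1), v))) := by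
  classical
  have h : Z (Cd.nst :: g) y = (∑ k : Fin 1, if y (Sum.inl k) = 0 then 1 else 0) +
      ∑ m : Fin 1, Z g (fun v => y (Sum.inr (m, v))) := by
    unfold Z
    refine (Fintype.sum_sum_type (α₁ := Fin 1) (α₂ := Fin 1 × VG g)
      (fun v => if y v = 0 then 1 else 0)).trans ?_
    congr 1
    exact Fintype.sum_prod_type (fun x : Fin 1 × VG g => if y (Sum.inr x) = 0 then 1 else 0)
  rw [h, Fin.sum_univ_one, Fin.sum_univ_one, if_neg h0, zero_add]

theorem Z_zero (g : List Cd) (y : VG g → ℝ) (h : ∀ v, y v ≠ 0) : Z g y = 0 := by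
  unfold Z
  apply Finset.sum_eq_zero
  intro v _
  rw [if_neg (h v)]

theorem Z_pos (g : List Cd) (y : VG g → ℝ) (h : Z g y ≠ 0) : ∃ v, y v = 0 := by
  by_contra hcon
  push Not at hcon
  exact h (Z_zero g y hcon)

theorem Z_le (g : List Cd) (y : VG g → ℝ) : Z g y ≤ Fintype.card (VG g) := by
  unfold Z
  calc (∑ v : VG g, if y v = 0 then 1 else 0) ≤ ∑ v : VG g, 1 := by
        apply Finset.sum_le_sum
        intro i _
        split_ifs <;> omega
    _ = _ := by simp

section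
variable {V : Type} {A : V → V → Prop} {f : V → Pt}

theorem K4b {c : Cd} {g : List Cd} (hc : (bs c).I = 1)
    {e : WG (c :: g) → V} (h : Emb 0 ((c :: g).map bs) A e)
    (i j k l : Fin (3 + (bs c).I)) (hij : (bs c).adj i j = true) (hik : (bs c).adj i k = true)
    (hil : (bs c).adj i l = true) (hjk : (bs c).adj j k = true) (hjl : (bs c).adj j l = true)
    (hkl : (bs c).adj k l = true) :
    K4 A (e (bvg c g i)) (e (bvg c g j)) (e (bvg c g k)) (e (bvg c g l)) := by
  have hadj : ∀ i j, (bs c).adj i j = true → A (e (bvg c g i)) (e (bvg c g j)) := by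
    intro i j hij
    exact h.adj _ _ (AG_base c g _ _ hij)
  have hne : ∀ i j, (bs c).adj i j = true → e (bvg c g i) ≠ e (bvg c g j) := by
    intro i j hij hh
    have h1 := bvg_inj c g (h.inj hh)
    rw [h1, adj_irr0] at hij
    exact absurd hij (by decide)
  exact ⟨hadj _ _ hij, hadj _ _ hik, hadj _ _ hil, hadj _ _ hjk, hadj _ _ hjl, hadj _ _ hkl,
    hne _ _ hij, hne _ _ hik, hne _ _ hil, hne _ _ hjk, hne _ _ hjl, hne _ _ hkl⟩

/-- the content of a child of a `K₄` -/
theorem k4child (hD : Drw A f) (hs : Sy A) {c : Cd} {g : List Cd} (hc : (bs c).I = 1)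
    {e : WG (c :: g) → V} (h : Emb 0 ((c :: g).map bs) A e) (m : Fin (bs c).M)
    (i0 i1 i2 o : Fin (3 + (bs c).I)) (e0 : (bs c).face m 0 = i0) (e1 : (bs c).face m 1 = i1)
    (e2 : (bs c).face m 2 = i2)
    (a0 : (bs c).adj i0 o = true) (a1 : (bs c).adj i1 o = true) (a2 : (bs c).adj i2 o = true)
    (hin : inT (f (e (bvg c g i0))) (f (e (bvg c g i1))) (f (e (bvg c g o))) (f (e (bvg c g i2))) ∨
      inT (f (e (bvg c g i1))) (f (e (bvg c g i2))) (f (e (bvg c g o))) (f (e (bvg c g i0))) ∨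
      inT (f (e (bvg c g i2))) (f (e (bvg c g i0))) (f (e (bvg c g o))) (f (e (bvg c g i1))))
    (v : VG g) :
    inT (f (e (cvg c g m (Sum.inl 0)))) (f (e (cvg c g m (Sum.inl 1))))
      (f (e (cvg c g m (Sum.inl 2)))) (f (e (cvg c g m (Sum.inr v)))) := by
  obtain ⟨hC, hAt⟩ := cn_at (emb_childg h m)
  have hnot : ∀ i, e (bvg c g i) ∉
      Set.range (fun v : VG g => e (cvg c g m (Sum.inr v))) := by
    rintro i ⟨v, hv⟩
    exact bvg_ne c g i m v (h.inj hv).symm
  have b01 : (bs c).adj i0 i1 = true := by rw [← e0, ← e1]; exact face_adj c m 0 1 (by decide)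
  have b12 : (bs c).adj i1 i2 = true := by rw [← e1, ← e2]; exact face_adj c m 1 2 (by decide)
  have b20 : (bs c).adj i2 i0 = true := by rw [← e2, ← e0]; exact face_adj c m 2 0 (by decide)
  have t0 := hAt 0
  have t1 := hAt 1
  have t2 := hAt 2
  rw [cvg_inl, e0] at t0
  rw [cvg_inl, e1] at t1
  rw [cvg_inl, e2] at t2
  rw [cvg_inl, cvg_inl, cvg_inl, e0, e1, e2]
  have sy : ∀ i j, (bs c).adj i j = true → (bs c).adj j i = true := by
    intro i j hij
    rw [adj_sym0]; exact hij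
  rcases hin with hin | hin | hin
  · exact k4in hD hs (K4b hc h i0 i1 o i2 b01 a0 (sy _ _ b20) a1 b12 (sy _ _ a2)) hin hC t0 t1 t2
      (hnot _) (hnot _) (hnot _) (hnot _) _ ⟨v, rfl⟩
  · have := k4in hD hs (K4b hc h i1 i2 o i0 b12 a1 (sy _ _ b01) a2 b20 (sy _ _ a0)) hin hC t1 t2 t0
      (hnot _) (hnot _) (hnot _) (hnot _) _ ⟨v, rfl⟩
    exact (inT_perm' this).2.1
  · have := k4in hD hs (K4b hc h i2 i0 o i1 b20 a2 (sy _ _ b12) a0 b01 (sy _ _ a1)) hin hC t2 t0 t1
      (hnot _) (hnot _) (hnot _) (hnot _) _ ⟨v, rfl⟩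
    exact (inT_perm' this).1

end

end Pool.Agent.K1H8.FT
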