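import Pool.Agent.K1H8.FT.Upper
import Pool.Agent.K1H8.FT.H7

set_option autoImplicit false

namespace Pool.Agent.K1H8.FT

open Pool.Agent.Helper745.FSub Relation

section
variable {V : Type} {A : V → V → Prop} {f : V → Pt}

/-- all inner vertices are inside the outer triangle -/
def Ins (f : V → Pt) {g : List Cd} (e : WG g → V) : Prop :=
  ∀ v : VG g, inT (f (e (Sum.inl 0))) (f (e (Sum.inl 1))) (f (e (Sum.inl 2))) (f (e (Sum.inr v)))

/-- some inner vertex is adjacent to the three corners -/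
def Ctr (g : List Cd) : Prop := ∃ d : VG g, ∀ i : Fin 3, AG g (Sum.inr d) (Sum.inl i)

/-- the bounds `a` (any line) and `b` (lines not crossing the special edge) for inside embeddings -/
def UB (A : V → V → Prop) (f : V → Pt) (g : List Cd) (a b : ℕ) : Prop :=
  ∀ e : WG g → V, Emb 0 (g.map bs) A e → Ins f e →
    Z g (fun v => (f (e (Sum.inr v))).2) ≤ a ∧
    (¬ (f (e (Sum.inl 1))).2 * (f (e (Sum.inl 2))).2 < 0 →
      Z g (fun v => (f (e (Sum.inr v))).2) ≤ b)

/-- position of the content of the child of a pocket vertex -/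
theorem nst_ins (hD : Drw A f) (hs : Sy A) {g : List Cd} {e : WG (Cd.nst :: g) → V}
    (h : Emb 0 ((Cd.nst :: g).map bs) A e) (hin : Ins f e) :
    Ins f (fun w => e (cvg Cd.nst g (0 : Fin 1) w)) := by
  intro v
  have h3 := hin (Sum.inl (0 : Fin 1))
  refine k4child hD hs rfl h (0 : Fin 1) (3 : Fin 4) (1 : Fin 4) (2 : Fin 4) (0 : Fin 4) rfl rfl rfl
    rfl rfl rfl (Or.inr (Or.inl ?_)) v
  exact (inT_perm' h3).1

theorem stf_ins (hD : Drw A f) (hs : Sy A) {g : List Cd} {e : WG (Cd.stf :: g) → V}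
    (h : Emb 0 ((Cd.stf :: g).map bs) A e) (hin : Ins f e) :
    ∀ m : Fin 3, Ins f (fun w => e (cvg Cd.stf g m w)) := by
  have h3 := hin (Sum.inl (0 : Fin 1))
  intro m
  fin_cases m
  · intro v
    refine k4child hD hs rfl h (0 : Fin 3) (1 : Fin 4) (0 : Fin 4) (3 : Fin 4) (2 : Fin 4) rfl rfl rfl
      rfl rfl rfl (Or.inl ?_) v
    exact (inT_perm' h3).2.2.1
  · intro v
    refine k4child hD hs rfl h (1 : Fin 3) (3 : Fin 4) (1 : Fin 4) (2 : Fin 4) (0 : Fin 4) rfl rfl rfl
      rfl rfl rfl (Or.inr (Or.inl ?_)) v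
    exact (inT_perm' h3).1
  · intro v
    refine k4child hD hs rfl h (2 : Fin 3) (2 : Fin 4) (3 : Fin 4) (0 : Fin 4) (1 : Fin 4) rfl rfl rfl
      rfl rfl rfl (Or.inr (Or.inr ?_)) v
    exact (inT_perm' h3).2.2.2.1

/-- abbreviation: the centre vertex `l` is inside the triangle of the three others -/
def tin (f : V → Pt) {g : List Cd} (e : WG (Cd.stf :: g) → V) (i j k l : Fin 4) : Prop :=
  inT (f (e (bvg Cd.stf g i))) (f (e (bvg Cd.stf g j))) (f (e (bvg Cd.stf g k)))
    (f (e (bvg Cd.stf g l)))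

theorem stf_c0 (hD : Drw A f) (hs : Sy A) {g : List Cd} {e : WG (Cd.stf :: g) → V}
    (h : Emb 0 ((Cd.stf :: g).map bs) A e)
    (hin : tin f e 1 0 2 3 ∨ tin f e 0 3 2 1 ∨ tin f e 3 1 2 0) :
    Ins f (fun w => e (cvg Cd.stf g (0 : Fin 3) w)) := fun v =>
  k4child hD hs rfl h (0 : Fin 3) (1 : Fin 4) (0 : Fin 4) (3 : Fin 4) (2 : Fin 4) rfl rfl rfl
      rfl rfl rfl hin v

theorem stf_c1 (hD : Drw A f) (hs : Sy A) {g : List Cd} {e : WG (Cd.stf :: g) → V}
    (h : Emb 0 ((Cd.stf :: g).map bs) A e)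
    (hin : tin f e 3 1 0 2 ∨ tin f e 1 2 0 3 ∨ tin f e 2 3 0 1) :
    Ins f (fun w => e (cvg Cd.stf g (1 : Fin 3) w)) := fun v =>
  k4child hD hs rfl h (1 : Fin 3) (3 : Fin 4) (1 : Fin 4) (2 : Fin 4) (0 : Fin 4) rfl rfl rfl
      rfl rfl rfl hin v

theorem stf_c2 (hD : Drw A f) (hs : Sy A) {g : List Cd} {e : WG (Cd.stf :: g) → V}
    (h : Emb 0 ((Cd.stf :: g).map bs) A e)
    (hin : tin f e 2 3 1 0 ∨ tin f e 3 0 1 2 ∨ tin f e 0 2 1 3) :
    Ins f (fun w => e (cvg Cd.stf g (2 : Fin 3) w)) := fun v =>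
  k4child hD hs rfl h (2 : Fin 3) (2 : Fin 4) (3 : Fin 4) (0 : Fin 4) (1 : Fin 4) rfl rfl rfl
      rfl rfl rfl hin v

/-- in every drawing, at least two of the three children of a frame vertex are inside their faces -/
theorem stf_any (hD : Drw A f) (hs : Sy A) {g : List Cd} {e : WG (Cd.stf :: g) → V}
    (h : Emb 0 ((Cd.stf :: g).map bs) A e) :
    ∃ m0 : Fin 3, ∀ m : Fin 3, m ≠ m0 → Ins f (fun w => e (cvg Cd.stf g m w)) := by
  have hK := K4b (A := A) rfl h (0 : Fin 4) (1 : Fin 4) (2 : Fin 4) (3 : Fin 4) rfl rfl rfl rfl rfl rfl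
  have hm3 : ∀ m : Fin 3, m = 0 ∨ m = 1 ∨ m = 2 := by decide
  rcases k4 hD hs hK with hin | hin | hin | hin
  · refine ⟨0, fun m _ => ?_⟩
    rcases hm3 m with rfl | rfl | rfl
    · exact stf_c0 hD hs h (Or.inl (inT_perm' hin).2.2.1)
    · exact stf_c1 hD hs h (Or.inr (Or.inl (inT_perm' hin).1))
    · exact stf_c2 hD hs h (Or.inr (Or.inr (inT_perm' hin).2.2.2.1))
  · refine ⟨1, fun m hm => ?_⟩
    rcases hm3 m with rfl | rfl | rfl
    · exact stf_c0 hD hs h (Or.inr (Or.inr (inT_perm' hin).2.1))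
    · exact absurd rfl hm
    · exact stf_c2 hD hs h (Or.inl (inT_perm' hin).1)
  · refine ⟨2, fun m hm => ?_⟩
    rcases hm3 m with rfl | rfl | rfl
    · exact stf_c0 hD hs h (Or.inr (Or.inl (inT_perm' hin).2.2.2.1))
    · exact stf_c1 hD hs h (Or.inr (Or.inr (inT_perm' hin).1))
    · exact absurd rfl hm
  · refine ⟨0, fun m hm => ?_⟩
    rcases hm3 m with rfl | rfl | rfl
    · exact absurd rfl hm
    · exact stf_c1 hD hs h (Or.inl (inT_perm' hin).2.2.2.2)
    · exact stf_c2 hD hs h (Or.inr (Or.inl (inT_perm' hin).2.1))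


/-- chains over the special edge -/
theorem up_nst (hD : Drw A f) (hs : Sy A) {g : List Cd} {a b : ℕ} (hb : 1 ≤ b)
    (hg : UB A f g a b) (n : ℕ) : UB A f (List.replicate n Cd.nst ++ g) (n + a) b := by
  induction n with
  | zero =>
    intro e he hin
    obtain ⟨h1, h2⟩ := hg e he hin
    exact ⟨h1.trans (by omega), h2⟩
  | succ n ih =>
    have key : UB A f (Cd.nst :: (List.replicate n Cd.nst ++ g)) (n + 1 + a) b := by
      intro e he hin
      have hi := nst_ins hD hs he hin
      obtain ⟨h1, h2⟩ := ih _ (emb_childg he (0 : Fin 1)) hi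
      have e1 : cvg Cd.nst (List.replicate n Cd.nst ++ g) (0 : Fin 1) (Sum.inl 1) = Sum.inl 1 := rfl
      have e2 : cvg Cd.nst (List.replicate n Cd.nst ++ g) (0 : Fin 1) (Sum.inl 2) = Sum.inl 2 := rfl
      have e0 : cvg Cd.nst (List.replicate n Cd.nst ++ g) (0 : Fin 1) (Sum.inl 0) =
        Sum.inr (Sum.inl (0 : Fin 1)) := rfl
      simp only [e1, e2] at h1 h2
      have hz := Z_cons Cd.nst (List.replicate n Cd.nst ++ g) (fun v => (f (e (Sum.inr v))).2)
      have hz' : Z (Cd.nst :: (List.replicate n Cd.nst ++ g)) (fun v => (f (e (Sum.inr v))).2) ≤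
          1 + ∑ m : Fin 1, Z (List.replicate n Cd.nst ++ g)
            (fun v => (f (e (Sum.inr (Sum.inr (m, v))))).2) := hz
      rw [Fin.sum_univ_one] at hz'
      have h1' : Z (List.replicate n Cd.nst ++ g)
            (fun v => (f (e (Sum.inr (Sum.inr ((0 : Fin 1), v))))).2) ≤ n + a := h1
      refine ⟨by omega, fun hn => ?_⟩
      by_cases h0 : (f (e (Sum.inr (Sum.inl (0 : Fin 1))))).2 = 0
      · have hzz : Z (List.replicate n Cd.nst ++ g)
            (fun v => (f (e (Sum.inr (Sum.inr ((0 : Fin 1), v))))).2) = 0 := by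
          apply Z_zero
          intro v
          have h3 := hi v
          simp only [e1, e2, e0] at h3
          refine line_avoid h3 ?_
          rintro ⟨ha, hb⟩
          apply hn
          rw [h0] at ha hb
          rcases ha with ha | ha | ha
          · exact absurd ha (lt_irrefl _)
          · rcases hb with hb | hb | hb
            · exact absurd hb (lt_irrefl _)
            · exact absurd (ha.trans hb) (lt_irrefl _)
            · first
                | exact mul_neg_of_neg_of_pos ha hb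
                | exact mul_neg_of_pos_of_neg ha hb
          · rcases hb with hb | hb | hb
            · exact absurd hb (lt_irrefl _)
            · first
                | exact mul_neg_of_neg_of_pos hb ha
                | exact mul_neg_of_pos_of_neg hb ha
            · exact absurd (ha.trans hb) (lt_irrefl _)
        omega
      · exact (Z_cons1 _ _ h0).trans (h2 hn)
    exact key

end

end Pool.Agent.K1H8.FT
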